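import Mathlib.SetTheory.Ordinal.Basic
import Mathlib.Computability.RecursiveIn

namespace Pool.Agent.MP_120e55_lc

/-- A real `x : 2^ω` used as an oracle (its characteristic function). -/
def oracle (x : ℕ → Bool) : ℕ →. ℕ := fun n => Part.some (if x n = true then 1 else 0)

/-- The initial segment of `f` of length `n`. -/
def seg {α : Type} (f : ℕ → α) (n : ℕ) : List α := (List.range n).map f

/-- The Turing join of four reals: position `4 k + i` carries bit `k` of the `i`-th real. -/
def join4 (x₀ x₁ x₂ x₃ : ℕ → Bool) : ℕ → Bool := fun n =>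
  if n % 4 = 0 then x₀ (n / 4) else if n % 4 = 1 then x₁ (n / 4)
  else if n % 4 = 2 then x₂ (n / 4) else x₃ (n / 4)

/-- `α` is an `x`-recursive ordinal: the order type of an `x`-computable well-ordering of an
`x`-computable set of natural numbers. -/
def RecursiveOrdinalIn (x : ℕ → Bool) (α : Ordinal.{0}) : Prop :=
  ∃ (D : ℕ → Bool) (r : ℕ → ℕ → Bool),
    ComputableIn {oracle x} D ∧ ComputableIn₂ {oracle x} r ∧
    ∃ _ : IsWellOrder {n : ℕ // D n = true} (fun a b => r a.1 b.1 = true),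
      Ordinal.type (fun a b : {n : ℕ // D n = true} => r a.1 b.1 = true) = α

/-- The least ordinal that is not `x`-recursive. -/
noncomputable def omegaCK (x : ℕ → Bool) : Ordinal.{0} := sInf {α | ¬ RecursiveOrdinalIn x α}

/-- Lightface analytic sets of reals relative to `y`: projections of `Π⁰₁(y)` subsets of
`2^ω × ω^ω`. -/
def Sigma11Reals (y : ℕ → Bool) (A : Set (ℕ → Bool)) : Prop :=
  ∃ R : List Bool × List ℕ → Bool, ComputableIn {oracle y} R ∧
    ∀ x : ℕ → Bool, x ∈ A ↔ ∃ f : ℕ → ℕ, ∀ n : ℕ, R (seg x n, seg f n) = true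

/-- Lightface analytic sets of natural numbers relative to `z`: projections of `Π⁰₁(z)` subsets
of `ω × ω^ω`. -/
def Sigma11Nat (z : ℕ → Bool) (S : Set ℕ) : Prop :=
  ∃ R : ℕ × List ℕ → Bool, ComputableIn {oracle z} R ∧
    ∀ m : ℕ, m ∈ S ↔ ∃ f : ℕ → ℕ, ∀ n : ℕ, R (m, seg f n) = true

/-- `γ` is hyperarithmetic in `z`: as a set of naturals it is `Δ¹₁(z)`. -/
def HypIn (γ z : ℕ → Bool) : Prop :=
  Sigma11Nat z {m | γ m = true} ∧ Sigma11Nat z {m | γ m = false}

end Pool.Agent.MP_120e55_lc
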