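import Pool.Agent.MP_120e55_lc.Ord
import Mathlib.Order.OrderIsoNat
import Mathlib.SetTheory.Ordinal.Family
import Mathlib.Algebra.Notation.Lemmas
import Mathlib.Data.ENat.Basic
import Mathlib.SetTheory.Ordinal.Basic
import Pool.Agent.MP_120e55_lc.Defs
import Mathlib.Tactic.NormNum.Ineq
import Mathlib.Tactic.Ring.RingNF
import Mathlib.Algebra.Order.Ring.Star
import Mathlib.Data.DFinsupp.WellFounded

-- ======== part 0: formerly Pool.Agent.MP_120e55_lc.Cond
section MrgPart0

namespace Pool.Agent.MP_120e55_lc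

open Ordinal

abbrev WO : Type 1 := WithTop Ordinal.{0}

/-- a finite tree on `{0, …, len - 1}` with root `0`, parent function `par` and ordinal tags -/
structure Stem where
  len : ℕ
  par : ℕ → ℕ
  tag : ℕ → WO

def Stem.Valid (σ : Stem) : Prop :=
  1 ≤ σ.len ∧ 0 < σ.tag 0 ∧ ∀ i, 1 ≤ i → i < σ.len → σ.par i < i ∧ σ.tag i < σ.tag (σ.par i)

/-- extension of stems; the tag of the root may decrease -/
def Ext (σ τ : Stem) : Prop :=
  τ.len ≤ σ.len ∧ (∀ i < τ.len, σ.par i = τ.par i) ∧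
    (∀ i, 1 ≤ i → i < τ.len → σ.tag i = τ.tag i) ∧ σ.tag 0 ≤ τ.tag 0

/-- extension of stems keeping the tag of the root -/
def ExtE (σ τ : Stem) : Prop := Ext σ τ ∧ σ.tag 0 = τ.tag 0

lemma Ext.refl (σ : Stem) : Ext σ σ := ⟨le_rfl, fun _ _ => rfl, fun _ _ _ => rfl, le_rfl⟩

lemma Ext.trans {σ τ ρ : Stem} (h1 : Ext σ τ) (h2 : Ext τ ρ) : Ext σ ρ :=
  ⟨h2.1.trans h1.1, fun i hi => (h1.2.1 i (hi.trans_le h2.1)).trans (h2.2.1 i hi),
    fun i h hi => (h1.2.2.1 i h (hi.trans_le h2.1)).trans (h2.2.2.1 i h hi),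
    h1.2.2.2.trans h2.2.2.2⟩

lemma ExtE.refl (σ : Stem) : ExtE σ σ := ⟨Ext.refl σ, rfl⟩

lemma ExtE.trans {σ τ ρ : Stem} (h1 : ExtE σ τ) (h2 : ExtE τ ρ) : ExtE σ ρ :=
  ⟨h1.1.trans h2.1, h1.2.trans h2.2⟩

lemma ExtE.tag_eq {σ τ : Stem} (h : ExtE σ τ) {i : ℕ} (hi : i < τ.len) : σ.tag i = τ.tag i := by
  rcases Nat.eq_zero_or_pos i with rfl | h0
  · exact h.2
  · exact h.1.2.2.1 i h0 hi

lemma Stem.Valid.tag_lt {σ : Stem} (h : σ.Valid) (i : ℕ) (h1 : 1 ≤ i) (h2 : i < σ.len) :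
    σ.tag i < σ.tag 0 := by
  induction i using Nat.strong_induction_on with
  | _ i ih =>
    obtain ⟨h3, h4⟩ := h.2.2 i h1 h2
    rcases Nat.eq_zero_or_pos (σ.par i) with h5 | h5
    · rwa [h5] at h4
    · exact h4.trans (ih _ h3 h5 (h3.trans h2))

/-- a forcing condition: finitely many stems -/
structure Cond where
  N : ℕ
  st : ℕ → Stem
  valid : ∀ j < N, (st j).Valid

instance : Preorder Cond where
  le q p := (∀ j < q.N, ∃ i < p.N, Ext (q.st j) (p.st i)) ∧
    (∀ i < p.N, ∃ j < q.N, ExtE (q.st j) (p.st i))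
  le_refl p := ⟨fun j hj => ⟨j, hj, Ext.refl _⟩, fun j hj => ⟨j, hj, ExtE.refl _⟩⟩
  le_trans r q p h1 h2 := by
    constructor
    · intro j hj
      obtain ⟨i, hi, e1⟩ := h1.1 j hj
      obtain ⟨k, hk, e2⟩ := h2.1 i hi
      exact ⟨k, hk, e1.trans e2⟩
    · intro k hk
      obtain ⟨i, hi, e2⟩ := h2.2 k hk
      obtain ⟨j, hj, e1⟩ := h1.2 i hi
      exact ⟨j, hj, e1.trans e2⟩

lemma Cond.le_def {q p : Cond} : q ≤ p ↔ (∀ j < q.N, ∃ i < p.N, Ext (q.st j) (p.st i)) ∧
    (∀ i < p.N, ∃ j < q.N, ExtE (q.st j) (p.st i)) := Iff.rfl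

/-- an `ω₁`-indexed family of conditions of the same shape, with a distinguished main stem -/
structure State where
  N : ℕ
  len : ℕ → ℕ
  par : ℕ → ℕ → ℕ
  tag : Om → ℕ → ℕ → WO
  main : ℕ
  valid : ∀ c, ∀ j < N, Stem.Valid ⟨len j, par j, tag c j⟩
  sb : ∀ j < N, ∀ i < len j, Std (fun c => tag c j i) ∨ Big (fun c => tag c j i)
  main_lt : main < N
  main_big : Big (fun c => tag c main 0)
  main_std : ∀ i, 1 ≤ i → i < len main → Std (fun c => tag c main i)

def State.st (S : State) (c : Om) (j : ℕ) : Stem := ⟨S.len j, S.par j, S.tag c j⟩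

def State.p (S : State) (c : Om) : Cond := ⟨S.N, S.st c, S.valid c⟩

/-- the reduct of a stem -/
noncomputable def State.rs (S : State) (j : ℕ) : Stem :=
  ⟨S.len j, S.par j, fun i => red (fun c => S.tag c j i)⟩

def Refines (S' S : State) (ι : Om → Om) (anc : ℕ → ℕ) : Prop :=
  Infl ι ∧ (∀ c, S'.p c ≤ S.p (ι c)) ∧
    (∀ j < S'.N, anc j < S.N ∧ ∀ c, Ext (S'.st c j) (S.st (ι c) (anc j))) ∧ anc S'.main = S.main

lemma Refines.refl (S : State) : Refines S S id id :=
  ⟨Infl.id, fun _ => le_rfl, fun _ hj => ⟨hj, fun _ => Ext.refl _⟩, rfl⟩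

lemma Refines.trans {S'' S' S : State} {ι ι' : Om → Om} {anc anc' : ℕ → ℕ}
    (h' : Refines S'' S' ι' anc') (h : Refines S' S ι anc) :
    Refines S'' S (ι ∘ ι') (anc ∘ anc') := by
  refine ⟨h.1.comp h'.1, fun c => (h'.2.1 c).trans (h.2.1 _), fun j hj => ?_, ?_⟩
  · obtain ⟨h1, h2⟩ := h'.2.2.1 j hj
    obtain ⟨h3, h4⟩ := h.2.2.1 _ h1
    exact ⟨h3, fun c => (h2 c).trans (h4 _)⟩
  · simp only [Function.comp]
    rw [h'.2.2.2, h.2.2.2]

def SLe (S' S : State) : Prop := ∃ ι anc, Refines S' S ι anc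

lemma SLe.refl (S : State) : SLe S S := ⟨_, _, Refines.refl S⟩

lemma SLe.trans {S'' S' S : State} (h' : SLe S'' S') (h : SLe S' S) : SLe S'' S := by
  obtain ⟨_, _, h'⟩ := h'
  obtain ⟨_, _, h⟩ := h
  exact ⟨_, _, h'.trans h⟩

lemma Refines.rs_ext {S' S : State} {ι : Om → Om} {anc : ℕ → ℕ} (h : Refines S' S ι anc)
    {j : ℕ} (hj : j < S'.N) : Ext (S'.rs j) (S.rs (anc j)) := by
  obtain ⟨h1, h2⟩ := h.2.2.1 j hj
  have hl : S.len (anc j) ≤ S'.len j := (h2 default).1
  have h0 : 1 ≤ S.len (anc j) := (S.valid default _ h1).1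
  refine ⟨hl, (h2 default).2.1, fun i hi1 hi2 => ?_, ?_⟩
  · change red _ = red _
    rw [← red_comp (S.sb _ h1 i hi2) h.1]
    congr 1
    funext c
    exact (h2 c).2.2.1 i hi1 hi2
  · change red _ ≤ red _
    rw [← red_comp (S.sb _ h1 0 h0) h.1]
    refine red_le (S'.sb j hj 0 (by omega)) ?_ fun c => (h2 c).2.2.2
    rcases S.sb _ h1 0 h0 with h3 | h3
    · exact Or.inl (h3.comp ι)
    · exact Or.inr (h3.comp h.1)

/-- reindexing -/
def State.re (S : State) (ι : Om → Om) (hι : Infl ι) : State where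
  N := S.N
  len := S.len
  par := S.par
  tag c := S.tag (ι c)
  main := S.main
  valid c := S.valid (ι c)
  sb j hj i hi := (S.sb j hj i hi).imp (fun h => h.comp ι) (fun h => h.comp hι)
  main_lt := S.main_lt
  main_big := S.main_big.comp hι
  main_std i h1 h2 := (S.main_std i h1 h2).comp ι

lemma State.re_p (S : State) (ι : Om → Om) (hι : Infl ι) (c : Om) :
    (S.re ι hι).p c = S.p (ι c) := rfl

lemma State.re_refines (S : State) (ι : Om → Om) (hι : Infl ι) : Refines (S.re ι hι) S ι id :=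
  ⟨hι, fun _ => le_rfl, fun _ hj => ⟨hj, fun _ => Ext.refl _⟩, rfl⟩

lemma fodor' (a : Om) (g : Om → WO) (hg : ∀ c, a < c → g c < (c.1 : WO)) :
    ∃ ι, Infl ι ∧ ∃ b : Om, ∀ c, a < ι c ∧ g (ι c) ≤ (b.1 : WO) := by
  have h1 : ∀ c, ∃ x : Ordinal.{0}, a < c → g c = x := by
    intro c
    by_cases h : a < c
    · obtain ⟨x, hx, _⟩ := WithTop.lt_iff_exists_coe.mp (hg c h)
      exact ⟨x, fun _ => hx⟩
    · exact ⟨0, fun h' => absurd h' h⟩
  choose g' hg' using h1
  obtain ⟨ι, hι, b, hb⟩ := fodor a g' fun c hc => by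
    have := hg c hc
    rwa [hg' c hc, WithTop.coe_lt_coe] at this
  refine ⟨ι, hι, b, fun c => ⟨(hb c).1, ?_⟩⟩
  rw [hg' _ (hb c).1, WithTop.coe_le_coe]
  exact (hb c).2

lemma State.main_bound (S : State) :
    ∃ a : Om, ∀ i, 1 ≤ i → i < S.len S.main → ∀ c, S.tag c S.main i < (a.1 : WO) := by
  have h1 : ∀ i, ∃ b : Om, 1 ≤ i → i < S.len S.main → ∀ c, S.tag c S.main i = (b.1 : WO) := by
    intro i
    by_cases h : 1 ≤ i ∧ i < S.len S.main
    · obtain ⟨b, hb⟩ := S.main_std i h.1 h.2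
      exact ⟨b, fun _ _ => hb⟩
    · exact ⟨default, fun h1 h2 => absurd ⟨h1, h2⟩ h⟩
  choose f hf using h1
  obtain ⟨a, ha⟩ := exists_bound f
  refine ⟨a, fun i h1 h2 c => ?_⟩
  rw [hf i h1 h2 c, WithTop.coe_lt_coe]
  exact ha i

/-- one step of the aliveness argument: duplicate the main stem with root tag `c` -/
lemma State.dup (S : State) (a : Om)
    (ha : ∀ i, 1 ≤ i → i < S.len S.main → ∀ c, S.tag c S.main i < (a.1 : WO)) (c : Om)
    (hc : a < c) : ∃ p' : Cond, p' ≤ S.p c.sc ∧ p'.N = S.N + 1 ∧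
      (∀ j < S.N, p'.st j = S.st c.sc j) ∧ Ext (p'.st S.N) (S.st c.sc S.main) ∧
      (p'.st S.N).tag 0 = (c.1 : WO) := by
  have hac : (a.1 : WO) < (c.1 : WO) := WithTop.coe_lt_coe.mpr hc
  let σ : Stem := ⟨S.len S.main, S.par S.main, fun i => if i = 0 then (c.1 : WO) else
    S.tag c.sc S.main i⟩
  have hv := S.valid c.sc S.main S.main_lt
  have hσ : σ.Valid := by
    refine ⟨hv.1, ?_, fun i h1 h2 => ⟨(hv.2.2 i h1 h2).1, ?_⟩⟩
    · exact lt_of_le_of_lt bot_le hac
    · simp only [σ]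
      rw [if_neg (by omega)]
      split_ifs with h3
      · exact (ha i h1 h2 _).trans hac
      · exact (hv.2.2 i h1 h2).2
  have hext : Ext σ (S.st c.sc S.main) := by
    refine ⟨le_rfl, fun _ _ => rfl, fun i h1 _ => ?_, ?_⟩
    · simp only [σ, State.st]
      rw [if_neg (by omega)]
    · exact le_trans (WithTop.coe_le_coe.mpr (lt_add_one c.1).le) (S.main_big c.sc)
  refine ⟨⟨S.N + 1, fun j => if j < S.N then S.st c.sc j else σ, fun j _ => ?_⟩, ⟨?_, ?_⟩, rfl,
    fun j hj => if_pos hj, ?_, ?_⟩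
  · split_ifs with h
    · exact S.valid c.sc j h
    · exact hσ
  · intro j _
    by_cases h : j < S.N
    · exact ⟨j, h, by simp only [if_pos h]; exact Ext.refl _⟩
    · exact ⟨S.main, S.main_lt, by simp only [if_neg h]; exact hext⟩
  · intro i hi
    have hi' : i < S.N := hi
    exact ⟨i, Nat.lt_succ_of_lt hi', by simp only [if_pos hi']; exact ExtE.refl _⟩
  · simp only [if_neg (lt_irrefl S.N)]; exact hext
  · simp only [if_neg (lt_irrefl S.N)]; rfl

/-- dense sets can be met while keeping the main stem alive -/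
theorem alive (S : State) (Φ : Om → Cond → Prop) (hmono : ∀ c q q', Φ c q → q' ≤ q → Φ c q')
    (hΦ : ∀ c : Om, ∀ p', p' ≤ S.p c.sc → ∃ q, q ≤ p' ∧ Φ c q) :
    ∃ S' κ, SLe S' S ∧ Infl κ ∧ ∀ c, Φ (κ c) (S'.p c) := by
  obtain ⟨a, ha⟩ := S.main_bound
  have h1 : ∀ c : Om, ∃ (q : Cond) (j : ℕ) (anc : ℕ → ℕ), a < c →
      q ≤ S.p c.sc ∧ Φ c q ∧ j < q.N ∧ anc j = S.main ∧
      (∀ j' < q.N, anc j' < S.N ∧ Ext (q.st j') (S.st c.sc (anc j'))) ∧
      (q.st j).tag 0 = (c.1 : WO) := by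
    intro c
    by_cases hc : a < c
    swap
    · exact ⟨S.p c, 0, id, fun h => absurd h hc⟩
    obtain ⟨p', hp1, hp2, hp3, hp4, hp5⟩ := S.dup a ha c hc
    obtain ⟨q, hq1, hq2⟩ := hΦ c p' hp1
    obtain ⟨j, hj1, hj2⟩ := hq1.2 S.N (by omega)
    have h2 : ∀ j', ∃ i, j' < q.N → i < S.N ∧ Ext (q.st j') (S.st c.sc i) := by
      intro j'
      by_cases h : j' < q.N
      · obtain ⟨i, hi, h3⟩ := (hq1.trans hp1).1 j' h
        exact ⟨i, fun _ => ⟨hi, h3⟩⟩
      · exact ⟨0, fun h' => absurd h' h⟩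
    choose anc hanc using h2
    refine ⟨q, j, fun j' => if j' = j then S.main else anc j', fun _ =>
      ⟨hq1.trans hp1, hq2, hj1, if_pos rfl, fun j' hj' => ?_, hj2.2.trans hp5⟩⟩
    by_cases h : j' = j
    · subst h
      simp only [if_true]
      exact ⟨S.main_lt, hj2.1.trans hp4⟩
    · simp only [if_neg h]
      exact hanc j' hj'
  choose q j anc hq using h1
  let g : Om → WO := fun c => (Finset.range ((q c).st (j c)).len).sup
    (fun i => if i = 0 then 0 else ((q c).st (j c)).tag i)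
  have hg : ∀ c, a < c → g c < (c.1 : WO) := by
    intro c hc
    obtain ⟨_, _, h3, _, _, h6⟩ := hq c hc
    have hv := (q c).valid _ h3
    have hpos : (⊥ : WO) < (c.1 : WO) := lt_of_le_of_lt bot_le (WithTop.coe_lt_coe.mpr hc)
    refine (Finset.sup_lt_iff hpos).mpr fun i hi => ?_
    split_ifs with h
    · exact hpos
    · rw [← h6]
      exact hv.tag_lt i (by omega) (Finset.mem_range.mp hi)
  obtain ⟨ι₁, hι₁, b, hb⟩ := fodor' a g hg
  let d : Om → ℕ × ℕ × List (ℕ × ℕ × List ℕ) := fun c => ((q c).N, j c,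
    (List.range (q c).N).map fun j' => (anc c j', ((q c).st j').len,
      (List.range ((q c).st j').len).map ((q c).st j').par))
  obtain ⟨ι₂, hι₂, v, hv⟩ := pigeon (d ∘ ι₁)
  let c₀ := ι₁ (ι₂ default)
  have hd : ∀ c, (q (ι₁ (ι₂ c))).N = (q c₀).N ∧ j (ι₁ (ι₂ c)) = j c₀ ∧
      ∀ j' < (q c₀).N, anc (ι₁ (ι₂ c)) j' = anc c₀ j' ∧
        ((q (ι₁ (ι₂ c))).st j').len = ((q c₀).st j').len ∧
        ∀ i < ((q c₀).st j').len, ((q (ι₁ (ι₂ c))).st j').par i = ((q c₀).st j').par i := by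
    intro c
    have e : d (ι₁ (ι₂ c)) = d c₀ := (hv c).trans (hv default).symm
    simp only [d, Prod.mk.injEq] at e
    obtain ⟨e1, e2, e3⟩ := e
    refine ⟨e1, e2, fun j' hj' => ?_⟩
    rw [e1, List.map_inj_left] at e3
    have e4 := e3 j' (List.mem_range.mpr hj')
    simp only [Prod.mk.injEq] at e4
    obtain ⟨e5, e6, e7⟩ := e4
    refine ⟨e5, e6, fun i hi => ?_⟩
    rw [e6, List.map_inj_left] at e7
    exact e7 i (List.mem_range.mpr hi)
  obtain ⟨ι₃, hι₃, hsb⟩ := dichot_finset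
    ((Finset.range (q c₀).N).sigma fun j' => Finset.range ((q c₀).st j').len)
    (fun t c => ((q (ι₁ (ι₂ c))).st t.1).tag t.2)
  let κ : Om → Om := ι₁ ∘ ι₂ ∘ ι₃
  have hκ : Infl κ := hι₁.comp (hι₂.comp hι₃)
  have hqκ := fun c => hq (κ c) (hb (ι₂ (ι₃ c))).1
  have hdκ := fun c => hd (ι₃ c)
  have hsb' : ∀ j' < (q c₀).N, ∀ i < ((q c₀).st j').len,
      Std (fun c => ((q (κ c)).st j').tag i) ∨ Big (fun c => ((q (κ c)).st j').tag i) :=
    fun j' hj' i hi => hsb ⟨j', i⟩ (by simp [hj', hi])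
  have hj₀ : j c₀ < (q c₀).N := (hq c₀ (hb _).1).2.2.1
  let S' : State :=
    { N := (q c₀).N
      len := fun j' => ((q c₀).st j').len
      par := fun j' => ((q c₀).st j').par
      tag := fun c j' => ((q (κ c)).st j').tag
      main := j c₀
      valid := by
        intro c j' hj'
        obtain ⟨e1, _, e3⟩ := hdκ c
        obtain ⟨_, e5, e6⟩ := e3 j' hj'
        have hv := (q (κ c)).valid j' (e1 ▸ hj')
        refine ⟨e5 ▸ hv.1, hv.2.1, fun i h1 h2 => ?_⟩
        have := hv.2.2 i h1 (lt_of_lt_of_eq h2 e5.symm)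
        exact (e6 i h2) ▸ this
      sb := hsb'
      main_lt := hj₀
      main_big := by
        intro c
        have := (hqκ c).2.2.2.2.2
        rw [show j (κ c) = j c₀ from (hdκ c).2.1] at this
        simp only [this]
        exact WithTop.coe_le_coe.mpr (hκ c)
      main_std := by
        intro i h1 h2
        refine (hsb' _ hj₀ i h2).resolve_right (not_big_of_le b fun c => ?_)
        refine le_trans ?_ (hb (ι₂ (ι₃ c))).2
        have e2 : j (κ c) = j c₀ := (hdκ c).2.1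
        have e5 : ((q (κ c)).st (j c₀)).len = ((q c₀).st (j c₀)).len := ((hdκ c).2.2 _ hj₀).2.1
        have := Finset.le_sup (s := Finset.range ((q (κ c)).st (j (κ c))).len)
          (f := fun i => if i = 0 then (0 : WO) else ((q (κ c)).st (j (κ c))).tag i) (b := i)
          (by rw [Finset.mem_range, e2, e5]; exact h2)
        simp only [if_neg (show i ≠ 0 by omega)] at this
        rw [← e2]
        exact this }
  have hext : ∀ c, ∀ j' < (q c₀).N, ExtE (S'.st c j') ((q (κ c)).st j') := by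
    intro c j' hj'
    obtain ⟨_, e5, e6⟩ := (hdκ c).2.2 j' hj'
    exact ⟨⟨e5.le, fun i hi => (e6 i (lt_of_lt_of_eq hi e5)).symm, fun _ _ _ => rfl, le_rfl⟩, rfl⟩
  have hle : ∀ c, S'.p c ≤ q (κ c) := by
    intro c
    have e1 : (q (κ c)).N = (q c₀).N := (hdκ c).1
    exact ⟨fun j' hj' => ⟨j', e1 ▸ hj', (hext c j' hj').1⟩,
      fun j' hj' => ⟨j', e1 ▸ hj', hext c j' (e1 ▸ hj')⟩⟩
  refine ⟨S', κ, ⟨fun c => (κ c).sc, anc c₀, fun c => (hκ c).trans (lt_add_one (κ c).1).le,
    fun c => (hle c).trans (hqκ c).1, fun j' hj' => ⟨?_, fun c => ?_⟩, ?_⟩, hκ,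
    fun c => hmono _ _ _ (hqκ c).2.1 (hle c)⟩
  · exact ((hq c₀ (hb _).1).2.2.2.2.1 j' hj').1
  · have e1 : (q (κ c)).N = (q c₀).N := (hdκ c).1
    have e4 : anc (κ c) j' = anc c₀ j' := ((hdκ c).2.2 j' hj').1
    have := ((hqκ c).2.2.2.2.1 j' (e1 ▸ hj')).2
    rw [e4] at this
    exact (hext c j' hj').1.trans this
  · exact (hq c₀ (hb _).1).2.2.2.1

end Pool.Agent.MP_120e55_lc

end MrgPart0

-- ======== part 1: formerly Pool.Agent.MP_120e55_lc.Lift
section MrgPart1

namespace Pool.Agent.MP_120e55_lc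

open Ordinal

/-- validity of reduced stems; `b` says that the stem is the main one -/
def Stem.QValid (b : Prop) (σ : Stem) : Prop :=
  1 ≤ σ.len ∧ ∀ i, 1 ≤ i → i < σ.len → σ.par i < i ∧
    (σ.tag i < σ.tag (σ.par i) ∨ σ.tag (σ.par i) = ⊤) ∧
    (σ.tag i = ⊤ ∨ ∃ β : Om, σ.tag i = (β.1 : WO)) ∧ (b → σ.tag i ≠ ⊤)

lemma State.rs_qvalid (S : State) {j : ℕ} (hj : j < S.N) : (S.rs j).QValid (j = S.main) := by
  refine ⟨(S.valid default j hj).1, fun i h1 h2 => ?_⟩
  have hp : S.par j i < i := ((S.valid default j hj).2.2 i h1 h2).1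
  refine ⟨hp, red_lt (S.sb j hj i h2) (S.sb j hj _ (hp.trans h2))
    fun c => ((S.valid c j hj).2.2 i h1 h2).2, ?_, ?_⟩
  · rcases red_cases (fun c => S.tag c j i) with h | ⟨b, hb, _⟩
    · exact Or.inl h
    · exact Or.inr ⟨b, hb⟩
  · rintro rfl
    obtain ⟨b, hb⟩ := S.main_std i h1 h2
    change red _ ≠ ⊤
    rw [red_of_const hb]
    exact WithTop.coe_ne_top

/-- refinement without splitting -/
def Same (S' S : State) : Prop :=
  S'.N = S.N ∧ S'.main = S.main ∧ SLe S' S ∧ ∀ j < S.N, ExtE (S'.rs j) (S.rs j)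

lemma Same.refl (S : State) : Same S S := ⟨rfl, rfl, SLe.refl S, fun _ _ => ExtE.refl _⟩

lemma Same.trans {S'' S' S : State} (h' : Same S'' S') (h : Same S' S) : Same S'' S :=
  ⟨h'.1.trans h.1, h'.2.1.trans h.2.1, h'.2.2.1.trans h.2.2.1,
    fun j hj => (h'.2.2.2 j (h.1 ▸ hj)).trans (h.2.2.2 j hj)⟩

theorem lift_one (S : State) {j : ℕ} (hj : j < S.N) (σ : Stem) (hσ : σ.QValid (j = S.main))
    (hext : ExtE σ (S.rs j)) : ∃ S' : State, Same S' S ∧ ExtE (S'.rs j) σ ∧
      ExtE σ (S'.rs j) ∧ ∀ j' < S.N, j' ≠ j → ExtE (S.rs j') (S'.rs j') := by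
  have h1 : ∀ i, ∃ β : Om, 1 ≤ i → i < σ.len → σ.tag i ≠ ⊤ → σ.tag i = (β.1 : WO) := by
    intro i
    by_cases h : 1 ≤ i ∧ i < σ.len ∧ σ.tag i ≠ ⊤
    · obtain ⟨β, hβ⟩ := (hσ.2 i h.1 h.2.1).2.2.1.resolve_left h.2.2
      exact ⟨β, fun _ _ _ => hβ⟩
    · exact ⟨default, fun h1 h2 h3 => absurd ⟨h1, h2, h3⟩ h⟩
  choose f hf using h1
  obtain ⟨B, hB⟩ := exists_bound f
  let base : Om → Om := fun c => max c B
  let ι : Om → Om := fun c => ⟨(base c).1 + σ.len, add_nat_lt (base c).2 _⟩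
  have hι : Infl ι := fun c => le_trans (le_max_left c B) (le_self_add (a := (base c).1))
  have hL : 1 ≤ S.len j := (S.valid default j hj).1
  have hLl : S.len j ≤ σ.len := hext.1.1
  have hsmall : ∀ c i, 1 ≤ i → i < σ.len → σ.tag i ≠ ⊤ → ∀ n : ℕ,
      σ.tag i < (((base c).1 + n : Ordinal.{0}) : WO) := by
    intro c i h1 h2 h3 n
    rw [hf i h1 h2 h3, WithTop.coe_lt_coe]
    exact lt_of_lt_of_le (hB i) (le_trans (le_max_right c B) (le_self_add (a := (base c).1)))
  let nt : Om → ℕ → WO := fun c i =>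
    if σ.tag i = ⊤ then (((base c).1 + (σ.len - i : ℕ) : Ordinal.{0}) : WO) else σ.tag i
  let tg : Om → ℕ → ℕ → WO := fun c j' i =>
    if j' = j ∧ S.len j ≤ i then nt c i else S.tag (ι c) j' i
  have tg_old : ∀ c i, i < S.len j → tg c j i = S.tag (ι c) j i :=
    fun c i hi => if_neg (by omega)
  have tg_new : ∀ c i, S.len j ≤ i → tg c j i = nt c i := fun c i hi => if_pos ⟨rfl, hi⟩
  have tg_ne : ∀ c j', j' ≠ j → tg c j' = S.tag (ι c) j' :=
    fun c j' h => funext fun i => if_neg fun h' => h h'.1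
  have hlt : ∀ (x : Ordinal.{0}) (m n : ℕ), m < n →
      ((x + m : Ordinal.{0}) : WO) < ((x + n : Ordinal.{0}) : WO) := by
    intro x m n h
    rw [WithTop.coe_lt_coe, add_lt_add_iff_left]
    exact_mod_cast h
  have hnt : ∀ i, S.len j ≤ i → i < σ.len →
      (σ.tag i = ⊤ ∧ Big fun c => nt c i) ∨ ∃ β : Om, σ.tag i = (β.1 : WO) ∧
        ∀ c, nt c i = (β.1 : WO) := by
    intro i h1 h2
    by_cases h : σ.tag i = ⊤
    · refine Or.inl ⟨h, fun c => ?_⟩
      simp only [nt, if_pos h]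
      rw [WithTop.coe_le_coe]
      exact le_trans (le_max_left c B) (le_self_add (a := (base c).1))
    · exact Or.inr ⟨f i, hf i (by omega) h2 h, fun c => by
        simp only [nt, if_neg h]; exact hf i (by omega) h2 h⟩
  let S' : State :=
    { N := S.N
      len := Function.update S.len j σ.len
      par := Function.update S.par j σ.par
      tag := tg
      main := S.main
      valid := by
        intro c j' hj'
        by_cases h : j' = j
        swap
        · simp only [Function.update_of_ne h, tg_ne c j' h]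
          exact S.valid _ j' hj'
        subst h
        simp only [Function.update_self]
        have hv := S.valid (ι c) j' hj'
        refine ⟨hσ.1, ?_, fun i h1 h2 => ⟨(hσ.2 i h1 h2).1, ?_⟩⟩
        · change 0 < tg c j' 0
          rw [tg_old c 0 hL]
          exact hv.2.1
        change tg c j' i < tg c j' (σ.par i)
        change i < σ.len at h2
        obtain ⟨hp, hq, -, -⟩ := hσ.2 i h1 h2
        by_cases hi : i < S.len j'
        · have e : σ.par i = S.par j' i := hext.1.2.1 i hi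
          rw [tg_old c i hi, tg_old c _ (hp.trans hi), e]
          exact (hv.2.2 i h1 hi).2
        rw [tg_new c i (by omega)]
        by_cases hpi : σ.par i < S.len j'
        · rw [tg_old c _ hpi]
          have e : σ.tag (σ.par i) = red (fun c => S.tag c j' (σ.par i)) := hext.tag_eq hpi
          rcases S.sb j' hj' _ hpi with ⟨b, hb⟩ | hb
          · rw [red_of_const hb] at e
            have h3 : σ.tag i < (b.1 : WO) := by
              rcases hq with hq | hq
              · exact e ▸ hq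
              · rw [e] at hq; exact absurd hq WithTop.coe_ne_top
            simp only [nt, if_neg h3.ne_top]
            exact lt_of_lt_of_eq h3 (hb (ι c)).symm
          · refine lt_of_lt_of_le ?_ (hb (ι c))
            simp only [nt]
            split_ifs with h3
            · exact hlt _ _ _ (by omega)
            · exact hsmall c i h1 h2 h3 _
        · rw [tg_new c _ (by omega)]
          simp only [nt]
          by_cases h4 : σ.tag (σ.par i) = ⊤
          · rw [if_pos h4]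
            split_ifs with h3
            · exact hlt _ _ _ (by omega)
            · exact hsmall c i h1 h2 h3 _
          · have h3 := hq.resolve_right h4
            rw [if_neg h4, if_neg h3.ne_top]
            exact h3
      sb := by
        intro j' hj' i hi
        by_cases h : j' = j
        swap
        · simp only [Function.update_of_ne h] at hi
          simp only [tg_ne _ j' h]
          exact (S.sb j' hj' i hi).imp (fun h => h.comp ι) (fun h => h.comp hι)
        subst h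
        simp only [Function.update_self] at hi
        by_cases h2 : i < S.len j'
        · simp only [tg_old _ i h2]
          exact (S.sb j' hj' i h2).imp (fun h => h.comp ι) (fun h => h.comp hι)
        · simp only [tg_new _ i (not_lt.mp h2)]
          rcases hnt i (not_lt.mp h2) hi with h3 | ⟨β, _, h3⟩
          · exact Or.inr h3.2
          · exact Or.inl ⟨β, h3⟩
      main_lt := S.main_lt
      main_big := by
        have : ∀ c, tg c S.main 0 = S.tag (ι c) S.main 0 := fun c => if_neg (by omega)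
        simp only [this]
        exact S.main_big.comp hι
      main_std := by
        intro i h1 hi
        by_cases h : S.main = j
        swap
        · simp only [Function.update_of_ne h] at hi
          simp only [tg_ne _ _ h]
          exact (S.main_std i h1 hi).comp ι
        subst h
        simp only [Function.update_self] at hi
        by_cases h2 : i < S.len S.main
        · simp only [tg_old _ i h2]
          exact (S.main_std i h1 h2).comp ι
        · simp only [tg_new _ i (not_lt.mp h2)]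
          rcases hnt i (not_lt.mp h2) hi with h3 | ⟨β, _, h3⟩
          · exact absurd h3.1 ((hσ.2 i h1 hi).2.2.2 rfl)
          · exact ⟨β, h3⟩ }
  have hst : ∀ c, ∀ j', ExtE (S'.st c j') (S.st (ι c) j') := by
    intro c j'
    by_cases h : j' = j
    swap
    · have : S'.st c j' = S.st (ι c) j' := by
        simp only [State.st, S', Function.update_of_ne h, tg_ne _ _ h]
      rw [this]; exact ExtE.refl _
    subst h
    have e0 : tg c j' 0 = S.tag (ι c) j' 0 := tg_old c 0 hL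
    refine ⟨⟨?_, fun i hi => ?_, fun i _ hi => tg_old c i hi, e0.le⟩, e0⟩
    · simp only [State.st, S', Function.update_self]; exact hLl
    · simp only [State.st, S', Function.update_self]; exact hext.1.2.1 i hi
  have hrs : ∀ j' < S.N, j' ≠ j → ExtE (S.rs j') (S'.rs j') ∧ ExtE (S'.rs j') (S.rs j') := by
    intro j' hj' h
    simp only [State.rs, S', Function.update_of_ne h, tg_ne _ _ h]
    have h0 : 0 < S.len j' := (S.valid default j' hj').1
    have e : ∀ i < S.len j', red (fun c => S.tag (ι c) j' i) = red (fun c => S.tag c j' i) :=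
      fun i hi => red_comp (S.sb j' hj' i hi) hι
    exact ⟨⟨⟨le_rfl, fun _ _ => rfl, fun i _ hi => (e i hi).symm, (e 0 h0).ge⟩, (e 0 h0).symm⟩,
      ⟨⟨le_rfl, fun _ _ => rfl, fun i _ hi => e i hi, (e 0 h0).le⟩, e 0 h0⟩⟩
  have htag : ∀ i < σ.len, (S'.rs j).tag i = σ.tag i := by
    intro i hi
    change red (fun c => tg c j i) = _
    by_cases h2 : i < S.len j
    · simp only [tg_old _ i h2]
      rw [hext.tag_eq h2]
      exact red_comp (S.sb j hj i h2) hι
    · simp only [tg_new _ i (not_lt.mp h2)]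
      rcases hnt i (not_lt.mp h2) hi with h3 | ⟨β, h4, h3⟩
      · rw [red_of_big h3.2, h3.1]
      · rw [red_of_const h3, h4]
  have hlen : (S'.rs j).len = σ.len := by simp only [State.rs, S', Function.update_self]
  have hpar : (S'.rs j).par = σ.par := by simp only [State.rs, S', Function.update_self]
  have e1 : ExtE (S'.rs j) σ :=
    ⟨⟨hlen.ge, fun i _ => by rw [hpar], fun i _ hi => htag i hi, (htag 0 hσ.1).le⟩, htag 0 hσ.1⟩
  have e2 : ExtE σ (S'.rs j) :=
    ⟨⟨hlen.le, fun i _ => by rw [hpar], fun i _ hi => (htag i (hlen ▸ hi)).symm,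
      (htag 0 hσ.1).ge⟩, (htag 0 hσ.1).symm⟩
  refine ⟨S', ⟨rfl, rfl, ⟨ι, id, hι, fun c => ⟨fun j' hj' => ⟨j', hj', (hst c j').1⟩,
    fun j' hj' => ⟨j', hj', hst c j'⟩⟩, fun j' hj' => ⟨hj', fun c => (hst c j').1⟩, rfl⟩,
    fun j' hj' => ?_⟩, e1, e2, fun j' hj' h => (hrs j' hj' h).1⟩
  by_cases h : j' = j
  · subst h; exact e1.trans hext
  · exact (hrs j' hj' h).2

/-- conditions of the reduced forcing for four (not necessarily distinct) branches -/
structure QC where
  E : Fin 4 → Fin 4 → Prop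
  b : Fin 4 → Prop
  st : Fin 4 → Stem
  valid : ∀ a, (st a).QValid (b a)
  eq : ∀ a a', E a a' → st a = st a'

instance : Preorder QC where
  le q p := q.E = p.E ∧ q.b = p.b ∧ ∀ a, ExtE (q.st a) (p.st a)
  le_refl p := ⟨rfl, rfl, fun _ => ExtE.refl _⟩
  le_trans _ _ _ h1 h2 := ⟨h1.1.trans h2.1, h1.2.1.trans h2.2.1,
    fun a => (h1.2.2 a).trans (h2.2.2 a)⟩

lemma QC.le_def {q p : QC} : q ≤ p ↔ q.E = p.E ∧ q.b = p.b ∧ ∀ a, ExtE (q.st a) (p.st a) :=
  Iff.rfl

/-- the reduced condition attached to four stems of a state -/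
noncomputable def State.rq (S : State) (τ : Fin 4 → ℕ) (h : ∀ a, τ a < S.N) : QC where
  E a a' := τ a = τ a'
  b a := τ a = S.main
  st a := S.rs (τ a)
  valid a := S.rs_qvalid (h a)
  eq _ _ e := by rw [e]

lemma Same.rq_le {S' S : State} (h : Same S' S) (τ : Fin 4 → ℕ) (h1 : ∀ a, τ a < S.N)
    (h2 : ∀ a, τ a < S'.N) : S'.rq τ h2 ≤ S.rq τ h1 :=
  ⟨rfl, by funext a; simp only [State.rq, h.2.1], fun a => h.2.2.2 _ (h1 a)⟩

theorem lift_four (S : State) (τ : Fin 4 → ℕ) (h : ∀ a, τ a < S.N) (q : QC) (hq : q ≤ S.rq τ h) :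
    ∃ S' : State, Same S' S ∧ ∀ h', S'.rq τ h' ≤ q := by
  have main : ∀ s : Finset (Fin 4), ∃ S' : State, Same S' S ∧
      (∀ a, ExtE (q.st a) (S'.rs (τ a))) ∧ ∀ a ∈ s, ExtE (S'.rs (τ a)) (q.st a) := by
    intro s
    induction s using Finset.induction_on with
    | empty => exact ⟨S, Same.refl S, hq.2.2, by simp⟩
    | insert a s _ ih =>
      obtain ⟨S₁, h1, h2, h3⟩ := ih
      have hv : (q.st a).QValid (τ a = S₁.main) := by
        have := q.valid a
        rw [hq.2.1] at this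
        rw [h1.2.1]
        exact this
      obtain ⟨S₂, h4, h5, h6, h7⟩ := lift_one S₁ (h1.1 ▸ h a) (q.st a) hv (h2 a)
      have hE : ∀ a', τ a' = τ a → q.st a' = q.st a := by
        intro a' e
        apply q.eq
        rw [hq.1]
        exact e
      refine ⟨S₂, h4.trans h1, fun a' => ?_, fun a' ha' => ?_⟩
      · by_cases e : τ a' = τ a
        · rw [hE a' e, e]; exact h6
        · exact (h2 a').trans (h7 _ (h1.1 ▸ h a') e)
      · rcases Finset.mem_insert.mp ha' with rfl | ha'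
        · exact h5
        · exact (h4.2.2.2 _ (h1.1 ▸ h a')).trans (h3 a' ha')
  obtain ⟨S', h1, -, h3⟩ := main Finset.univ
  refine ⟨S', h1, fun h' => ⟨hq.1.symm, ?_, fun a => h3 a (Finset.mem_univ a)⟩⟩
  rw [hq.2.1]
  funext a
  simp only [State.rq, h1.2.1]

/-- all quadruples of stems can be moved into dense open sets simultaneously -/
theorem lift_all (S : State) (D : (Fin 4 → ℕ) → QC → Prop)
    (hopen : ∀ τ q q', D τ q → q' ≤ q → D τ q') (hdense : ∀ τ q, ∃ q', q' ≤ q ∧ D τ q') :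
    ∃ S' : State, SLe S' S ∧ ∀ τ h, D τ (S'.rq τ h) := by
  have main : ∀ s : Finset (Fin 4 → ℕ), ∃ S' : State, Same S' S ∧
      ∀ τ ∈ s, ∀ h, D τ (S'.rq τ h) := by
    intro s
    induction s using Finset.induction_on with
    | empty => exact ⟨S, Same.refl S, by simp⟩
    | insert τ s _ ih =>
      obtain ⟨S₁, h1, h2⟩ := ih
      by_cases hτ : ∀ a, τ a < S₁.N
      · obtain ⟨q, hq, hD⟩ := hdense τ (S₁.rq τ hτ)
        obtain ⟨S₂, h3, h4⟩ := lift_four S₁ τ hτ q hq
        refine ⟨S₂, h3.trans h1, fun τ' hτ' h => ?_⟩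
        rcases Finset.mem_insert.mp hτ' with rfl | hτ'
        · exact hopen _ _ _ hD (h4 h)
        · have h' : ∀ a, τ' a < S₁.N := fun a => h3.1 ▸ h a
          exact hopen _ _ _ (h2 τ' hτ' h') (h3.rq_le τ' h' h)
      · refine ⟨S₁, h1, fun τ' hτ' h => ?_⟩
        rcases Finset.mem_insert.mp hτ' with rfl | hτ'
        · exact absurd h hτ
        · exact h2 τ' hτ' h
  obtain ⟨S', h1, h2⟩ := main (Fintype.piFinset fun _ => Finset.range S.N)
  exact ⟨S', h1.2.2.1, fun τ h => h2 τ (by simpa [← h1.1] using h) h⟩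

/-- adding one node with a standard tag to the main stem -/
theorem add_main (S : State) (n : ℕ) (hn : n < S.len S.main) (β : Om)
    (hβ : (β.1 : WO) < (S.rs S.main).tag n) :
    ∃ S' : State, SLe S' S ∧ ∃ i, 1 ≤ i ∧ i < S'.len S'.main ∧ S'.par S'.main i = n ∧
      (S'.rs S'.main).tag i = (β.1 : WO) := by
  let L := S.len S.main
  have hL : 1 ≤ L := (S.valid default _ S.main_lt).1
  let σ : Stem := ⟨L + 1, fun i => if i < L then S.par S.main i else n,
    fun i => if i < L then (S.rs S.main).tag i else (β.1 : WO)⟩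
  have hv := S.rs_qvalid S.main_lt
  have hσ : σ.QValid (S.main = S.main) := by
    refine ⟨by simp [σ], fun i h1 h2 => ?_⟩
    by_cases hi : i < L
    · obtain ⟨h3, h4⟩ := hv.2 i h1 hi
      have h5 : S.par S.main i < L := lt_trans h3 hi
      simp only [σ, if_pos hi, if_pos h5]
      exact ⟨h3, h4.1, h4.2.1, fun _ => h4.2.2 rfl⟩
    · have h6 : n < L := hn
      simp only [σ, if_neg hi, if_pos h6]
      exact ⟨by omega, Or.inl hβ, Or.inr ⟨β, rfl⟩, fun _ => WithTop.coe_ne_top⟩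
  have h0 : σ.tag 0 = (S.rs S.main).tag 0 := if_pos hL
  have hext : ExtE σ (S.rs S.main) :=
    ⟨⟨Nat.le_succ _, fun i hi => if_pos hi, fun i _ hi => if_pos hi, h0.le⟩, h0⟩
  obtain ⟨S', h1, h2, -, -⟩ := lift_one S S.main_lt σ hσ hext
  refine ⟨S', h1.2.2.1, L, hL, ?_, ?_, ?_⟩
  · rw [h1.2.1]; exact h2.1.1
  · rw [h1.2.1]
    exact (h2.1.2.1 L (Nat.lt_succ_self L)).trans (if_neg (lt_irrefl L))
  · rw [h1.2.1]
    exact (h2.tag_eq (Nat.lt_succ_self L)).trans (if_neg (lt_irrefl L))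

/-- all stems can be made long -/
theorem lengthen (S : State) (l : ℕ) : ∃ S' : State, SLe S' S ∧ ∀ j < S'.N, l ≤ S'.len j := by
  obtain ⟨S', κ, h1, -, h2⟩ := alive S (fun _ q => ∀ j < q.N, l ≤ (q.st j).len)
    (fun _ q q' h hq j hj => by
      obtain ⟨i, hi, e⟩ := hq.1 j hj
      exact (h i hi).trans e.1)
    (fun c p' _ => by
      let st : ℕ → Stem := fun j => ⟨max (p'.st j).len l,
        fun i => if i < (p'.st j).len then (p'.st j).par i else 0,
        fun i => if i < (p'.st j).len then (p'.st j).tag i else 0⟩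
      have h0 : ∀ j < p'.N, (st j).tag 0 = (p'.st j).tag 0 :=
        fun j hj => if_pos (p'.valid j hj).1
      have hext : ∀ j < p'.N, ExtE (st j) (p'.st j) := fun j hj =>
        ⟨⟨le_max_left _ _, fun i hi => if_pos hi, fun i _ hi => if_pos hi, (h0 j hj).le⟩, h0 j hj⟩
      refine ⟨⟨p'.N, st, fun j hj => ?_⟩, ⟨fun j hj => ⟨j, hj, (hext j hj).1⟩,
        fun j hj => ⟨j, hj, hext j hj⟩⟩, fun j _ => le_max_right _ _⟩
      have hv := p'.valid j hj
      refine ⟨hv.1.trans (le_max_left _ _), (h0 j hj) ▸ hv.2.1, fun i h1 h2 => ?_⟩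
      by_cases hi : i < (p'.st j).len
      · obtain ⟨h3, h4⟩ := hv.2.2 i h1 hi
        simp only [st, if_pos hi, if_pos (h3.trans hi)]
        exact ⟨h3, h4⟩
      · have h5 : 0 < (p'.st j).len := hv.1
        simp only [st, if_neg hi, if_pos h5]
        exact ⟨h1, hv.2.1⟩)
  exact ⟨S', h1, h2 default⟩

end Pool.Agent.MP_120e55_lc

end MrgPart1

-- ======== part 2: formerly Pool.Agent.MP_120e55_lc.Rank
section MrgPart2

namespace Pool.Agent.MP_120e55_lc

universe u v w

section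

variable {P : Type u} [Preorder P] {N : Type w}

/-- `Ref step ξ p n`: the condition `p` forces that the node `n` has rank at most `ξ`. -/
def Ref (step : P → N → N → Prop) (ξ : Ordinal.{v}) (p : P) (n : N) : Prop :=
  ∀ m q, q ≤ p → step q m n → ∃ r, r ≤ q ∧ ∃ ζ, ∃ _ : ζ < ξ, Ref step ζ r m
termination_by ξ

variable {step : P → N → N → Prop}

lemma ref_iff {ξ : Ordinal.{v}} {p : P} {n : N} : Ref step ξ p n ↔
    ∀ m q, q ≤ p → step q m n → ∃ r, r ≤ q ∧ ∃ ζ, ζ < ξ ∧ Ref step ζ r m := by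
  rw [Ref]; simp

lemma Ref.mono {ξ : Ordinal.{v}} {p q : P} {n : N} (h : Ref step ξ p n) (hq : q ≤ p) :
    Ref step ξ q n := by
  rw [ref_iff] at h ⊢
  exact fun m r hr => h m r (hr.trans hq)

lemma Ref.mono_ord {ξ ξ' : Ordinal.{v}} {p : P} {n : N} (h : Ref step ξ p n) (hξ : ξ ≤ ξ') :
    Ref step ξ' p n := by
  rw [ref_iff] at h ⊢
  intro m q hq hs
  obtain ⟨r, hr, ζ, hζ, h2⟩ := h m q hq hs
  exact ⟨r, hr, ζ, hζ.trans_le hξ, h2⟩

open Classical in
/-- the forced rank -/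
noncomputable def rho (step : P → N → N → Prop) (p : P) (n : N) : WithTop Ordinal.{v} :=
  if ∃ ξ : Ordinal.{v}, Ref step ξ p n then ((sInf {ξ : Ordinal.{v} | Ref step ξ p n} : Ordinal.{v}) :
    WithTop Ordinal.{v}) else ⊤

lemma rho_le_iff {ξ : Ordinal.{v}} {p : P} {n : N} :
    rho step p n ≤ (ξ : WithTop Ordinal.{v}) ↔ Ref step ξ p n := by
  constructor
  · intro h
    by_cases h1 : ∃ ξ : Ordinal.{v}, Ref step ξ p n
    · rw [rho, if_pos h1, WithTop.coe_le_coe] at h
      exact (csInf_mem (s := {ξ : Ordinal.{v} | Ref step ξ p n}) h1).mono_ord h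
    · rw [rho, if_neg h1] at h
      simp at h
  · intro h
    rw [rho, if_pos ⟨ξ, h⟩, WithTop.coe_le_coe]
    exact csInf_le' h

lemma rho_mono {p q : P} (hq : q ≤ p) (n : N) : rho.{u, v, w} step q n ≤ rho step p n := by
  cases h : rho.{u, v, w} step p n with
  | top => exact le_top
  | coe ξ => exact rho_le_iff.mpr ((rho_le_iff.mp h.le).mono hq)

/-- the forced rank cannot be lowered any more -/
def MinR (step : P → N → N → Prop) (p : P) (n : N) : Prop :=
  ∀ r, r ≤ p → rho.{u, v, w} step r n = rho step p n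

lemma MinR.mono {p q : P} {n : N} (h : MinR.{u, v, w} step p n) (hq : q ≤ p) :
    MinR.{u, v, w} step q n :=
  fun r hr => (h r (hr.trans hq)).trans (h q hq).symm

lemma exists_minR (step : P → N → N → Prop) (p : P) (n : N) :
    ∃ q, q ≤ p ∧ MinR.{u, v, w} step q n := by
  obtain ⟨_, ⟨q, hq, rfl⟩, hmin⟩ := (wellFounded_lt (α := WithTop Ordinal.{v})).has_min
    {a | ∃ q, q ≤ p ∧ rho.{u, v, w} step q n = a} ⟨_, p, le_rfl, rfl⟩
  exact ⟨q, hq, fun r hr => le_antisymm (rho_mono hr n)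
    (not_lt.mp (hmin _ ⟨r, hr.trans hq, rfl⟩))⟩

lemma rho_step {p : P} {m n : N} (hm : MinR.{u, v, w} step p m) (hs : step p m n)
    (hn : rho.{u, v, w} step p n ≠ ⊤) : rho.{u, v, w} step p m < rho step p n := by
  obtain ⟨ξ, hξ⟩ := WithTop.ne_top_iff_exists.mp hn
  obtain ⟨r, hr, ζ, hζ, h⟩ := ref_iff.mp (rho_le_iff.mp hξ.ge) m p le_rfl hs
  rw [← hm r hr, ← hξ]
  exact lt_of_le_of_lt (rho_le_iff.mpr h) (WithTop.coe_lt_coe.mpr hζ)

lemma exists_step_of_lt {p : P} {n : N} {c : Ordinal.{v}}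
    (h : (c : WithTop Ordinal.{v}) < rho step p n) :
    ∃ m q, q ≤ p ∧ step q m n ∧ ∀ r, r ≤ q → (c : WithTop Ordinal.{v}) ≤ rho step r m := by
  have h1 : ¬ Ref step c p n := fun h' => absurd (rho_le_iff.mpr h') (not_le.mpr h)
  rw [ref_iff] at h1
  push Not at h1
  obtain ⟨m, q, hq, hs, h2⟩ := h1
  refine ⟨m, q, hq, hs, fun r hr => ?_⟩
  by_contra h3
  obtain ⟨ζ, h4, h5⟩ := WithTop.lt_iff_exists_coe.mp (not_le.mp h3)
  exact h2 r hr ζ (WithTop.coe_lt_coe.mp h5) (rho_le_iff.mp h4.le)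

lemma exists_step_of_top [Small.{v} (N × P)] {p : P} {n : N}
    (h : rho.{u, v, w} step p n = ⊤) :
    ∃ m q, q ≤ p ∧ step q m n ∧ ∀ r, r ≤ q → rho.{u, v, w} step r m = ⊤ := by
  by_contra hcon
  have h1 : ∀ x : N × P, ∃ ζ : Ordinal.{v}, x.2 ≤ p → step x.2 x.1 n →
      ∃ r, r ≤ x.2 ∧ Ref step ζ r x.1 := by
    rintro ⟨m, q⟩
    by_cases h2 : q ≤ p ∧ step q m n
    · have h3 : ¬ ∀ r, r ≤ q → rho.{u, v, w} step r m = ⊤ :=
        fun h3 => hcon ⟨m, q, h2.1, h2.2, h3⟩
      push Not at h3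
      obtain ⟨r, hr, h4⟩ := h3
      obtain ⟨ζ, hζ⟩ := WithTop.ne_top_iff_exists.mp h4
      exact ⟨ζ, fun _ _ => ⟨r, hr, rho_le_iff.mp hζ.ge⟩⟩
    · exact ⟨0, fun h3 h4 => absurd ⟨h3, h4⟩ h2⟩
  choose f hf using h1
  have h5 : Ref step ((⨆ x, f x) + 1) p n := by
    rw [ref_iff]
    intro m q hq hs
    obtain ⟨r, hr, h6⟩ := hf (m, q) hq hs
    exact ⟨r, hr, _, lt_of_le_of_lt (Ordinal.le_iSup f (m, q)) (lt_add_one _), h6⟩
  have := rho_le_iff.mpr h5
  rw [h] at this
  simp at this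

/-- either the rank is forced to be an ordinal, or a step preserving infinite rank is forced -/
def Dec (step : P → N → N → Prop) (p : P) (n : N) : Prop :=
  rho.{u, v, w} step p n ≠ ⊤ ∨ ∃ m, step p m n ∧ ∀ r, r ≤ p → rho.{u, v, w} step r m = ⊤

lemma Dec.mono (hst : ∀ p q m n, q ≤ p → step p m n → step q m n) {p q : P} {n : N}
    (h : Dec.{u, v, w} step p n) (hq : q ≤ p) : Dec.{u, v, w} step q n := by
  rcases h with h | ⟨m, h1, h2⟩
  · exact Or.inl (ne_top_of_le_ne_top h (rho_mono hq n))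
  · exact Or.inr ⟨m, hst _ _ _ _ hq h1, fun r hr => h2 r (hr.trans hq)⟩

lemma exists_dec [Small.{v} (N × P)] (step : P → N → N → Prop) (p : P) (n : N) :
    ∃ q, q ≤ p ∧ Dec.{u, v, w} step q n := by
  by_cases h : rho.{u, v, w} step p n = ⊤
  · obtain ⟨m, q, hq, hs, h2⟩ := exists_step_of_top h
    exact ⟨q, hq, Or.inr ⟨m, hs, h2⟩⟩
  · exact ⟨p, le_rfl, Or.inl h⟩

/-- the truth lemma for a sufficiently generic descending sequence -/
lemma truth (hst : ∀ p q m n, q ≤ p → step p m n → step q m n) (q : ℕ → P) (hq : Antitone q)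
    (hmin : ∀ n, ∃ k, MinR.{u, v, w} step (q k) n) (hdec : ∀ n, ∃ k, Dec.{u, v, w} step (q k) n)
    (n₀ : N) :
    (∃ f : ℕ → N, f 0 = n₀ ∧ ∀ j, ∃ k, step (q k) (f (j + 1)) (f j)) ↔
      ∀ k, rho.{u, v, w} step (q k) n₀ = ⊤ := by
  choose K hK using hmin
  constructor
  · rintro ⟨f, hf0, hf⟩ k₀
    by_contra hne
    let a : ℕ → WithTop Ordinal.{v} := fun j => rho step (q (K (f j))) (f j)
    have hval : ∀ n k, K n ≤ k → rho.{u, v, w} step (q k) n = rho step (q (K n)) n :=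
      fun n k hk => hK n _ (hq hk)
    have h0 : a 0 ≠ ⊤ := by
      have h1 := hval n₀ (max k₀ (K n₀)) (le_max_right _ _)
      simp only [a, hf0]
      rw [← h1]
      exact ne_top_of_le_ne_top hne (rho_mono (hq (le_max_left _ _)) _)
    have hstep : ∀ j, a j ≠ ⊤ → a (j + 1) < a j := by
      intro j hj
      obtain ⟨k, hk⟩ := hf j
      let k' := max k (max (K (f j)) (K (f (j + 1))))
      have e1 := hval (f j) k' (by omega)
      have e2 := hval (f (j + 1)) k' (by omega)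
      simp only [a] at hj ⊢
      rw [← e1] at hj ⊢
      rw [← e2]
      exact rho_step ((hK _).mono (hq (by omega))) (hst _ _ _ _ (hq (by omega)) hk) hj
    have hall : ∀ j, a j ≠ ⊤ := by
      intro j
      induction j with
      | zero => exact h0
      | succ j ih => exact (hstep j ih).ne_top
    exact not_strictAnti_of_wellFoundedLT a
      (strictAnti_nat_of_succ_lt fun j => hstep j (hall j))
  · intro h
    have hnext : ∀ n : {n : N // ∀ k, rho.{u, v, w} step (q k) n = ⊤},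
        ∃ m : {n : N // ∀ k, rho.{u, v, w} step (q k) n = ⊤}, ∃ k, step (q k) m.1 n.1 := by
      rintro ⟨n, hn⟩
      obtain ⟨k, hk⟩ := hdec n
      rcases hk with hk | ⟨m, h1, h2⟩
      · exact absurd (hn k) hk
      · refine ⟨⟨m, fun k' => ?_⟩, k, h1⟩
        have := rho_mono.{u, v, w} (step := step) (hq (le_max_left k' k)) m
        rw [h2 _ (hq (le_max_right k' k))] at this
        exact top_le_iff.mp this
    choose g hg using hnext
    refine ⟨fun j => (g^[j] ⟨n₀, h⟩).1, rfl, fun j => ?_⟩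
    simp only [Function.iterate_succ_apply']
    exact hg _

end

end Pool.Agent.MP_120e55_lc

end MrgPart2

-- ======== part 3: formerly Pool.Agent.MP_120e55_lc.KB
section MrgPart3

namespace Pool.Agent.MP_120e55_lc

/-- normalized parent function -/
def pr (par : ℕ → ℕ) (n : ℕ) : ℕ := if par n < n then par n else 0

lemma pr_lt (par : ℕ → ℕ) {n : ℕ} (h : 1 ≤ n) : pr par n < n := by
  unfold pr; split_ifs with h1
  · exact h1
  · omega

/-- the path from the root to a node -/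
def path (par : ℕ → ℕ) : ℕ → List ℕ
  | 0 => []
  | n + 1 => path par (pr par (n + 1)) ++ [n + 1]
decreasing_by exact pr_lt par (by omega)

lemma path_zero (par : ℕ → ℕ) : path par 0 = [] := by rw [path]

lemma path_pos (par : ℕ → ℕ) {n : ℕ} (h : 1 ≤ n) : path par n = path par (pr par n) ++ [n] := by
  obtain ⟨m, rfl⟩ : ∃ m, n = m + 1 := ⟨n - 1, by omega⟩
  rw [path]

lemma path_congr {par par' : ℕ → ℕ} (n : ℕ) (h : ∀ i ≤ n, par i = par' i) :
    path par n = path par' n := by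
  induction n using Nat.strong_induction_on with
  | _ n ih =>
    rcases Nat.eq_zero_or_pos n with rfl | hn
    · rw [path_zero, path_zero]
    · have e : pr par n = pr par' n := by simp only [pr, h n le_rfl]
      have hl := pr_lt par hn
      rw [path_pos par hn, path_pos par' hn, ← e, ih _ hl fun i hi => h i (by omega)]

lemma path_inj (par : ℕ → ℕ) {a b : ℕ} (h : path par a = path par b) : a = b := by
  rcases Nat.eq_zero_or_pos a with rfl | ha <;> rcases Nat.eq_zero_or_pos b with rfl | hb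
  · rfl
  · rw [path_zero, path_pos par hb] at h; simp at h
  · rw [path_zero, path_pos par ha] at h; simp at h
  · rw [path_pos par ha, path_pos par hb] at h
    simpa using (List.append_inj' h rfl).2

def key (par : ℕ → ℕ) (n : ℕ) : List (WithTop ℕ) :=
  (path par n).map (fun i => (WithTop.some i : WithTop ℕ)) ++ [⊤]

lemma key_inj (par : ℕ → ℕ) : Function.Injective (key par) := by
  intro a b h
  apply path_inj par
  have := (List.append_inj' h rfl).1
  exact List.map_injective_iff.mpr WithTop.coe_injective this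

/-- the Kleene-Brouwer order -/
def kb (par : ℕ → ℕ) (a b : ℕ) : Prop := key par a < key par b

lemma append_lt_iff (l : List (WithTop ℕ)) (s t : List (WithTop ℕ)) : l ++ s < l ++ t ↔ s < t := by
  induction l with
  | nil => simp
  | cons a l ih => simp [ih]

lemma kb_child (par : ℕ → ℕ) {n : ℕ} (h : 1 ≤ n) : kb par n (pr par n) := by
  rw [kb, key, key, path_pos par h, List.map_append, List.append_assoc, append_lt_iff]
  simp [List.cons_lt_cons_iff]

lemma desc_step (par : ℕ → ℕ) (n a : ℕ) (h : path par n <+: path par a) (hne : a ≠ n) :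
    ∃ m, 1 ≤ m ∧ pr par m = n ∧ path par m <+: path par a := by
  induction a using Nat.strong_induction_on with
  | _ a ih =>
    rcases Nat.eq_zero_or_pos a with rfl | ha
    · rw [path_zero, List.prefix_nil, ← path_zero par] at h
      exact absurd (path_inj par h).symm hne
    · have h2 := h
      rw [path_pos par ha, List.prefix_concat_iff] at h2
      rcases h2 with h2 | h2
      · rw [← path_pos par ha] at h2
        exact absurd (path_inj par h2).symm hne
      · by_cases h3 : pr par a = n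
        · exact ⟨a, ha, h3, List.prefix_refl _⟩
        · obtain ⟨m, h4, h5, h6⟩ := ih _ (pr_lt par ha) h2 h3
          refine ⟨m, h4, h5, h6.trans ?_⟩
          rw [path_pos par ha]
          exact List.prefix_append _ _

lemma sibling_lt (par : ℕ → ℕ) {m m' b : ℕ} (hm : 1 ≤ m) (hm' : 1 ≤ m')
    (h : pr par m' = pr par m) (hb : path par m' <+: path par b) (hlt : kb par b m)
    (hne : m' ≠ m) : m' < m := by
  obtain ⟨t, ht⟩ := hb
  rw [kb, key, key, ← ht, path_pos par hm, path_pos par hm', h] at hlt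
  simp only [List.map_append, List.append_assoc, append_lt_iff] at hlt
  simp only [List.map_cons, List.map_nil, List.cons_append, List.nil_append,
    List.cons_lt_cons_iff, WithTop.coe_lt_coe, WithTop.coe_eq_coe] at hlt
  rcases hlt with h1 | h1
  · exact h1
  · exact absurd h1.1 hne

lemma kb_trans {par : ℕ → ℕ} {a b c : ℕ} (h1 : kb par a b) (h2 : kb par b c) : kb par a c :=
  lt_trans (α := List (WithTop ℕ)) h1 h2

lemma kb_wf (par : ℕ → ℕ) (t : ℕ → WithTop Ordinal.{0}) (ht : ∀ i, 1 ≤ i → t i < t (pr par i)) :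
    WellFounded (kb par) := by
  have main : ∀ n, (∀ b, kb par b n → ¬ path par n <+: path par b → Acc (kb par) b) →
      ∀ a, path par n <+: path par a → Acc (kb par) a := by
    intro n
    induction n using (wellFounded_lt.onFun (f := t)).induction with
    | _ n ihn =>
      intro H
      have hch : ∀ m, 1 ≤ m → pr par m = n → ∀ a, path par m <+: path par a → Acc (kb par) a := by
        intro m
        induction m using Nat.strong_induction_on with
        | _ m ihm =>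
          intro hm hpm
          have hmn : kb par m n := hpm ▸ kb_child par hm
          refine ihn m (by simpa [Function.onFun, ← hpm] using ht m hm) ?_
          intro b hb hnb
          by_cases h1 : path par n <+: path par b
          · have hbn : b ≠ n := by
              rintro rfl
              exact lt_asymm (α := List (WithTop ℕ)) hb hmn
            obtain ⟨m', h2, h3, h4⟩ := desc_step par n b h1 hbn
            have hne : m' ≠ m := by rintro rfl; exact hnb h4
            exact ihm m' (sibling_lt par hm h2 (h3.trans hpm.symm) h4 hb hne) h2 h3 b h4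
          · exact H b (kb_trans hb hmn) h1
      have hprop : ∀ a, path par n <+: path par a → a ≠ n → Acc (kb par) a := by
        intro a ha hne
        obtain ⟨m, h2, h3, h4⟩ := desc_step par n a ha hne
        exact hch m h2 h3 a h4
      intro a ha
      by_cases hne : a = n
      · subst hne
        refine Acc.intro _ fun b hb => ?_
        by_cases h1 : path par a <+: path par b
        · refine hprop b h1 ?_
          rintro rfl
          exact lt_irrefl (α := List (WithTop ℕ)) _ hb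
        · exact H b hb h1
      · exact hprop a ha hne
  refine ⟨fun a => main 0 (fun b _ hb => ?_) a (by rw [path_zero]; exact List.nil_prefix)⟩
  exact absurd (by rw [path_zero]; exact List.nil_prefix) hb

lemma kb_trichotomous (par : ℕ → ℕ) (a b : ℕ) (h1 : ¬ kb par a b) (h2 : ¬ kb par b a) : a = b :=
  key_inj par (le_antisymm (not_lt.mp h2) (not_lt.mp h1))

open Classical in
/-- the real coding the Kleene-Brouwer order of the tree with parent function `par` -/
noncomputable def X (par : ℕ → ℕ) : ℕ → Bool :=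
  fun n => decide (kb par (Nat.unpair n).1 (Nat.unpair n).2)

lemma X_pair (par : ℕ → ℕ) (a b : ℕ) : X par (Nat.pair a b) = true ↔ kb par a b := by
  simp [X]

lemma X_congr {par par' : ℕ → ℕ} (n : ℕ) (h : ∀ i ≤ n, par i = par' i) : X par n = X par' n := by
  have h1 := Nat.unpair_left_le n
  have h2 := Nat.unpair_right_le n
  simp only [X]
  rw [decide_eq_decide, kb, kb, key, key, key, key, path_congr (par := par) (par' := par') _ fun i hi => h i (hi.trans h1),
    path_congr (par := par) (par' := par') (Nat.unpair n).2 fun i hi => h i (hi.trans h2)]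

end Pool.Agent.MP_120e55_lc

end MrgPart3

-- ======== part 4: formerly Pool.Agent.MP_120e55_lc.Oracle
section MrgPart4

namespace Pool.Agent.MP_120e55_lc

open Encodable

/-- codes for oracle computations -/
inductive OC : Type
  | zero : OC
  | succ : OC
  | left : OC
  | right : OC
  | orc : OC
  | pair : OC → OC → OC
  | comp : OC → OC → OC
  | prec : OC → OC → OC
  | rfind : OC → OC

def OC.code : OC → ℕ
  | .zero => Nat.pair 0 0
  | .succ => Nat.pair 1 0
  | .left => Nat.pair 2 0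
  | .right => Nat.pair 3 0
  | .orc => Nat.pair 4 0
  | .pair a b => Nat.pair 5 (Nat.pair a.code b.code)
  | .comp a b => Nat.pair 6 (Nat.pair a.code b.code)
  | .prec a b => Nat.pair 7 (Nat.pair a.code b.code)
  | .rfind a => Nat.pair 8 a.code

lemma OC.code_inj : ∀ a b : OC, a.code = b.code → a = b := by
  intro a
  induction a with
  | pair a₁ a₂ ih₁ ih₂ =>
    intro b h
    cases b <;> simp [OC.code] at h
    rw [ih₁ _ h.1, ih₂ _ h.2]
  | comp a₁ a₂ ih₁ ih₂ =>
    intro b h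
    cases b <;> simp [OC.code] at h
    rw [ih₁ _ h.1, ih₂ _ h.2]
  | prec a₁ a₂ ih₁ ih₂ =>
    intro b h
    cases b <;> simp [OC.code] at h
    rw [ih₁ _ h.1, ih₂ _ h.2]
  | rfind a ih =>
    intro b h
    cases b <;> simp [OC.code] at h
    rw [ih _ h]
  | _ =>
    intro b h
    cases b <;> simp [OC.code] at h
    rfl

instance : Countable OC := Function.Injective.countable (f := OC.code) OC.code_inj

instance : Inhabited OC := ⟨OC.zero⟩

/-- evaluation of a code with oracle `z` -/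
def ev (z : ℕ → Bool) : OC → ℕ →. ℕ
  | .zero => fun _ => 0
  | .succ => Nat.succ
  | .left => fun n => (Nat.unpair n).1
  | .right => fun n => (Nat.unpair n).2
  | .orc => oracle z
  | .pair a b => fun n => (Nat.pair <$> ev z a n <*> ev z b n)
  | .comp a b => fun n => ev z b n >>= ev z a
  | .prec a b => fun p =>
      let (x, n) := Nat.unpair p
      n.rec (ev z a x) fun y IH => do
        let i ← IH
        ev z b (Nat.pair x (Nat.pair y i))
  | .rfind a => fun x => Nat.rfind fun n => (fun m => m = 0) <$> ev z a (Nat.pair x n)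

lemma exists_code {z : ℕ → Bool} {f : ℕ →. ℕ} (h : Nat.RecursiveIn {oracle z} f) :
    ∃ e, ev z e = f := by
  induction h with
  | zero => exact ⟨.zero, rfl⟩
  | succ => exact ⟨.succ, rfl⟩
  | left => exact ⟨.left, rfl⟩
  | right => exact ⟨.right, rfl⟩
  | oracle g hg => exact ⟨.orc, (Set.mem_singleton_iff.mp hg).symm⟩
  | pair _ _ ih₁ ih₂ =>
    obtain ⟨a, rfl⟩ := ih₁
    obtain ⟨b, rfl⟩ := ih₂
    exact ⟨.pair a b, rfl⟩
  | comp _ _ ih₁ ih₂ =>
    obtain ⟨a, rfl⟩ := ih₁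
    obtain ⟨b, rfl⟩ := ih₂
    exact ⟨.comp a b, rfl⟩
  | prec _ _ ih₁ ih₂ =>
    obtain ⟨a, rfl⟩ := ih₁
    obtain ⟨b, rfl⟩ := ih₂
    exact ⟨.prec a b, rfl⟩
  | rfind _ ih =>
    obtain ⟨a, rfl⟩ := ih
    exact ⟨.rfind a, rfl⟩

/-- `P` holds for every oracle that agrees with `z` on a long enough initial segment -/
def Near (z : ℕ → Bool) (P : (ℕ → Bool) → Prop) : Prop :=
  ∃ u : ℕ, ∀ z' : ℕ → Bool, (∀ i < u, z' i = z i) → P z'

lemma Near.and {z : ℕ → Bool} {P Q : (ℕ → Bool) → Prop} (hP : Near z P) (hQ : Near z Q) :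
    Near z (fun z' => P z' ∧ Q z') := by
  obtain ⟨u, hu⟩ := hP
  obtain ⟨v, hv⟩ := hQ
  exact ⟨max u v, fun z' h => ⟨hu z' fun i hi => h i (by omega), hv z' fun i hi => h i (by omega)⟩⟩

lemma Near.mono {z : ℕ → Bool} {P Q : (ℕ → Bool) → Prop} (hP : Near z P)
    (h : ∀ z', P z' → Q z') : Near z Q := by
  obtain ⟨u, hu⟩ := hP
  exact ⟨u, fun z' h' => h z' (hu z' h')⟩

lemma Near.of_forall {z : ℕ → Bool} {P : (ℕ → Bool) → Prop} (h : ∀ z', P z') : Near z P :=
  ⟨0, fun z' _ => h z'⟩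

lemma Near.forall_lt {z : ℕ → Bool} {P : ℕ → (ℕ → Bool) → Prop} (n : ℕ)
    (h : ∀ m < n, Near z (P m)) : Near z (fun z' => ∀ m < n, P m z') := by
  induction n with
  | zero => exact Near.of_forall (by simp)
  | succ n ih =>
    refine ((ih fun m hm => h m (by omega)).and (h n (by omega))).mono ?_
    rintro z' ⟨h1, h2⟩ m hm
    rcases Nat.lt_succ_iff_lt_or_eq.mp hm with h3 | rfl
    · exact h1 m h3
    · exact h2

/-- the use principle -/
lemma ev_near (z : ℕ → Bool) (e : OC) : ∀ n v, v ∈ ev z e n → Near z (fun z' => v ∈ ev z' e n) := by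
  induction e with
  | zero => intro n v h; exact Near.of_forall fun _ => h
  | succ => intro n v h; exact Near.of_forall fun _ => h
  | left => intro n v h; exact Near.of_forall fun _ => h
  | right => intro n v h; exact Near.of_forall fun _ => h
  | orc =>
    intro n v h
    refine ⟨n + 1, fun z' h' => ?_⟩
    simp only [ev, oracle] at h ⊢
    rw [h' n (by omega)]; exact h
  | pair a b iha ihb =>
    intro n v h
    simp only [ev, Seq.seq, Part.map_eq_map, Part.mem_bind_iff, Part.mem_map_iff] at h ⊢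
    obtain ⟨_, ⟨x, hx, rfl⟩, y, hy, rfl⟩ := h
    exact ((iha n x hx).and (ihb n y hy)).mono fun z' h' => ⟨_, ⟨x, h'.1, rfl⟩, y, h'.2, rfl⟩
  | comp a b iha ihb =>
    intro n v h
    simp only [ev, Part.bind_eq_bind, Part.mem_bind_iff] at h ⊢
    obtain ⟨x, hx, hv⟩ := h
    exact ((ihb n x hx).and (iha x v hv)).mono fun z' h' => ⟨x, h'.1, h'.2⟩
  | prec a b iha ihb =>
    intro p
    simp only [ev]
    generalize (Nat.unpair p).1 = x
    generalize (Nat.unpair p).2 = n
    induction n with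
    | zero => intro v h; exact iha x v h
    | succ n ih =>
      intro v h
      simp only [Part.bind_eq_bind, Part.mem_bind_iff] at h ⊢
      obtain ⟨i, hi, hv⟩ := h
      exact ((ih i hi).and (ihb _ v hv)).mono fun z' h' => ⟨i, h'.1, h'.2⟩
  | rfind a iha =>
    intro x v h
    simp only [ev, Nat.mem_rfind, Part.map_eq_map, Part.mem_map_iff] at h ⊢
    obtain ⟨⟨w, hw, hw0⟩, hlt⟩ := h
    have h2 : Near z (fun z' => ∀ m < v, ∃ w ∈ ev z' a (Nat.pair x m), decide (w = 0) = false) := by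
      apply Near.forall_lt
      intro m hm
      obtain ⟨w', hw', hw0'⟩ := hlt hm
      exact (iha _ _ hw').mono fun z' h' => ⟨w', h', hw0'⟩
    exact ((iha _ _ hw).and h2).mono fun z' h' => ⟨⟨w, h'.1, hw0⟩, fun hm => h'.2 _ hm⟩

/-- a Boolean function computable in `z` has a code -/
lemma exists_code_bool {α : Type} [Primcodable α] {z : ℕ → Bool} {R : α → Bool}
    (h : ComputableIn {oracle z} R) :
    ∃ e : OC, ∀ a, (1 ∈ ev z e (encode a) ↔ R a = true) := by
  obtain ⟨e, he⟩ := exists_code h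
  refine ⟨e, fun a => ?_⟩
  rw [he]
  cases hR : R a <;> simp [hR]

/-- looking up the oracle at a computable position is computable in the oracle -/
lemma computableIn_lookup {α : Type} [Primcodable α] (x : ℕ → Bool) {g : α → ℕ}
    (hg : Computable g) : ComputableIn {oracle x} (fun a => x (g a)) := by
  have h1 : Nat.RecursiveIn {oracle x} (oracle x) := .oracle _ rfl
  have h2 : Nat.RecursiveIn {oracle x} _ := Nat.Partrec.recursiveIn hg
  refine (Nat.RecursiveIn.comp h1 h2).of_eq fun n => ?_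
  cases hd : decode (α := α) n with
  | none => simp
  | some a =>
    cases hx : x (g a) <;> simp [oracle, hx]

end Pool.Agent.MP_120e55_lc

end MrgPart4

-- ======== part 5: formerly Pool.Agent.MP_120e55_lc.Tasks
section MrgPart5

namespace Pool.Agent.MP_120e55_lc

open Ordinal Encodable

lemma seg_congr {α : Type} {f g : ℕ → α} {m : ℕ} (h : ∀ i < m, f i = g i) : seg f m = seg g m := by
  rw [seg, seg, List.map_inj_left]
  exact fun i hi => h i (List.mem_range.mp hi)

lemma seg_length {α : Type} (f : ℕ → α) (m : ℕ) : (seg f m).length = m := by simp [seg]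

lemma seg_inj {α : Type} {f g : ℕ → α} {m m' : ℕ} (h : seg f m = seg g m') :
    m = m' ∧ ∀ i < m, f i = g i := by
  have e : m = m' := by simpa [seg_length] using congrArg List.length h
  subst e
  rw [seg, seg, List.map_inj_left] at h
  exact ⟨rfl, fun i hi => h i (List.mem_range.mpr hi)⟩

lemma seg_succ {α : Type} (f : ℕ → α) (m : ℕ) : seg f (m + 1) = seg f m ++ [f m] := by
  simp [seg, List.range_succ]

lemma Ext.X_eq {σ τ : Stem} (h : Ext σ τ) {i : ℕ} (hi : i < τ.len) : X σ.par i = X τ.par i :=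
  X_congr i fun k hk => h.2.1 k (lt_of_le_of_lt hk hi)

def InTree (p : Cond) (n : ℕ) : Prop :=
  ∃ j < p.N, ∃ m ≤ (p.st j).len, encode (seg (X (p.st j).par) m) = n

def Det (p : Cond) (n : ℕ) : Prop :=
  ∀ s : List Bool, encode s = n → ∀ j < p.N, s.length ≤ (p.st j).len

lemma InTree.up {p q : Cond} (h : q ≤ p) {n : ℕ} (hn : InTree p n) : InTree q n := by
  obtain ⟨i, hi, m, hm, e⟩ := hn
  obtain ⟨j, hj, h2⟩ := h.2 i hi
  refine ⟨j, hj, m, hm.trans h2.1.1, ?_⟩
  rw [← e, seg_congr fun k hk => h2.1.X_eq (lt_of_lt_of_le hk hm)]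

lemma InTree.down {p q : Cond} (h : q ≤ p) {n : ℕ} (hd : Det p n) (hn : InTree q n) :
    InTree p n := by
  obtain ⟨j, hj, m, hm, e⟩ := hn
  obtain ⟨i, hi, h2⟩ := h.1 j hj
  have hm' : m ≤ (p.st i).len := by simpa [seg_length] using hd _ e i hi
  refine ⟨i, hi, m, hm', ?_⟩
  rw [← e, seg_congr fun k hk => h2.X_eq (lt_of_lt_of_le hk hm')]

lemma Det.up {p q : Cond} (h : q ≤ p) {n : ℕ} (hd : Det p n) : Det q n := by
  intro s hs j hj
  obtain ⟨i, hi, h2⟩ := h.1 j hj
  exact (hd s hs i hi).trans h2.1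

def Compat (p : Cond) (y : ℕ → Bool) : Prop := ∀ n, Det p n → (y n = true ↔ InTree p n)

lemma Compat.mono {p q : Cond} (h : q ≤ p) {y : ℕ → Bool} (hy : Compat q y) : Compat p y :=
  fun n hn => (hy n (hn.up h)).trans ⟨InTree.down h hn, InTree.up h⟩

def Forces (p : Cond) (e : OC) (n : ℕ) : Prop := ∀ y, Compat p y → 1 ∈ ev y e n

lemma Forces.mono {p q : Cond} (h : q ≤ p) {e : OC} {n : ℕ} (hf : Forces p e n) : Forces q e n :=
  fun y hy => hf y (hy.mono h)

def stepP (eD er : OC) (p : Cond) (m n : Option ℕ) : Prop :=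
  ∃ m', m = some m' ∧ Forces p eD (encode m') ∧ ∀ n', n = some n' → Forces p er (encode (m', n'))

lemma stepP_mono (eD er : OC) (p q : Cond) (m n : Option ℕ) (h : q ≤ p)
    (hs : stepP eD er p m n) : stepP eD er q m n := by
  obtain ⟨m', h1, h2, h3⟩ := hs
  exact ⟨m', h1, h2.mono h, fun n' hn' => (h3 n' hn').mono h⟩

/-- forced rank in the tree forcing -/
noncomputable abbrev rP (eD er : OC) (p : Cond) (n : Option ℕ) : WO :=
  rho.{1, 0, 0} (stepP eD er) p n

def TaskLow (eD er : OC) (n : Option ℕ) (S : State) : Prop :=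
  (∀ c, MinR.{1, 0, 0} (stepP eD er) (S.p c) n) ∧
  ((∃ β : Om, (∀ c, rP eD er (S.p c) n = (β.1 : WO)) ∧
      ∃ i, 1 ≤ i ∧ i < S.len S.main ∧ (S.rs S.main).tag i = (β.1 : WO)) ∨
    ∃ m, ∀ c, stepP eD er (S.p c) m n ∧ ∀ r, r ≤ S.p c → (c.1 : WO) ≤ rP eD er r m)

lemma State.rs_main_root (S : State) : (S.rs S.main).tag 0 = ⊤ := red_of_big S.main_big

lemma taskLow_dense (eD er : OC) (n : Option ℕ) (S : State) :
    ∃ S', SLe S' S ∧ TaskLow eD er n S' := by
  obtain ⟨S₁, -, h1, -, h2⟩ := alive S (fun _ q => MinR.{1, 0, 0} (stepP eD er) q n)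
    (fun _ _ _ h hq => h.mono hq) (fun _ p' _ => exists_minR _ p' n)
  obtain ⟨ι, hι, h3⟩ := dichot (fun c => rP eD er (S₁.p c) n)
  let S₂ := S₁.re ι hι
  have h4 : SLe S₂ S := SLe.trans ⟨_, _, S₁.re_refines ι hι⟩ h1
  have h5 : ∀ c, MinR.{1, 0, 0} (stepP eD er) (S₂.p c) n := fun c => h2 (ι c)
  rcases h3 with ⟨β, hβ⟩ | hbig
  · obtain ⟨S₃, h6, i, h7, h8, -, h9⟩ := add_main S₂ 0 (S₂.valid default _ S₂.main_lt).1 β
      (by rw [S₂.rs_main_root]; exact WithTop.coe_lt_top _)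
    refine ⟨S₃, h6.trans h4, ?_⟩
    obtain ⟨κ, anc, h6⟩ := h6
    refine ⟨fun c => (h5 _).mono (h6.2.1 c), Or.inl ⟨β, fun c => ?_, i, h7, h8, h9⟩⟩
    exact (h5 _ _ (h6.2.1 c)).trans (hβ _)
  · obtain ⟨S₃, κ, h6, hκ, h7⟩ := alive S₂
      (fun c q => ∃ m, stepP eD er q m n ∧ ∀ r, r ≤ q → (c.1 : WO) ≤ rP eD er r m)
      (fun _ q q' ⟨m, h, h'⟩ hq => ⟨m, stepP_mono _ _ _ _ _ _ hq h, fun r hr => h' r (hr.trans hq)⟩)
      (fun c p' hp' => by
        have e : rP eD er p' n = rP eD er (S₂.p c.sc) n := h5 _ _ hp'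
        have h8 : (c.1 : WO) < rP eD er p' n := by
          rw [e]
          exact lt_of_lt_of_le (WithTop.coe_lt_coe.mpr (lt_add_one c.1)) (hbig c.sc)
        obtain ⟨m, q, hq, hs, hr⟩ := exists_step_of_lt h8
        exact ⟨q, hq, m, hs, hr⟩)
    choose m hm using h7
    obtain ⟨ι', hι', m₀, hm₀⟩ := pigeon m
    have h8 : SLe (S₃.re ι' hι') S₂ := SLe.trans ⟨_, _, S₃.re_refines ι' hι'⟩ h6
    refine ⟨S₃.re ι' hι', h8.trans h4, ?_⟩
    obtain ⟨κ', anc, h8⟩ := h8
    refine ⟨fun c => (h5 _).mono (h8.2.1 c), Or.inr ⟨m₀, fun c => ?_⟩⟩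
    have := hm (ι' c)
    rw [hm₀ c] at this
    exact ⟨this.1, fun r hr => le_trans (WithTop.coe_le_coe.mpr ((hι' c).trans (hκ _)))
      (this.2 r hr)⟩

/-- a fixed enumeration of the ordinals below a countable ordinal -/
noncomputable def en (a : Ordinal.{0}) : ℕ → Ordinal.{0} := (exists_enum a).choose

lemma en_spec {a : Ordinal.{0}} (h : a < ω₁) {b : Ordinal.{0}} (hb : b < a) : ∃ i, en a i = b :=
  (exists_enum a).choose_spec h b hb

def TaskRank (n i : ℕ) (S : State) : Prop :=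
  (∀ j < S.N, n < S.len j) ∧ (1 ≤ n → ∀ α : Om, (S.rs S.main).tag n = (α.1 : WO) →
    en α.1 i < α.1 → ∃ m, 1 ≤ m ∧ m < S.len S.main ∧ S.par S.main m = n ∧
      (S.rs S.main).tag m = (en α.1 i : WO))

lemma SLe.len_le {S' S : State} (h : SLe S' S) {l : ℕ} (hl : ∀ j < S.N, l ≤ S.len j) :
    ∀ j < S'.N, l ≤ S'.len j := by
  obtain ⟨ι, anc, h⟩ := h
  intro j hj
  obtain ⟨h1, h2⟩ := h.2.2.1 j hj
  exact (hl _ h1).trans (h2 default).1

lemma SLe.main_ext {S' S : State} (h : SLe S' S) : Ext (S'.rs S'.main) (S.rs S.main) := by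
  obtain ⟨ι, anc, h⟩ := h
  have := h.rs_ext S'.main_lt
  rwa [h.2.2.2] at this

lemma taskRank_dense (n i : ℕ) (S : State) : ∃ S', SLe S' S ∧ TaskRank n i S' := by
  obtain ⟨S₁, h1, h2⟩ := lengthen S (n + 1)
  have hn : n < S₁.len S₁.main := h2 _ S₁.main_lt
  by_cases h : 1 ≤ n ∧ ∃ α : Om, (S₁.rs S₁.main).tag n = (α.1 : WO) ∧ en α.1 i < α.1
  · obtain ⟨h0, α, h3, h4⟩ := h
    obtain ⟨S₂, h5, m, h6, h7, h8, h9⟩ := add_main S₁ n hn ⟨en α.1 i, h4.trans α.2⟩
      (by rw [h3]; exact WithTop.coe_lt_coe.mpr h4)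
    refine ⟨S₂, h5.trans h1, h5.len_le h2, fun _ α' hα' _ => ?_⟩
    have e : (S₂.rs S₂.main).tag n = (S₁.rs S₁.main).tag n := h5.main_ext.2.2.1 n h0 hn
    have e2 : α'.1 = α.1 := WithTop.coe_injective (hα'.symm.trans (e.trans h3))
    rw [e2]
    exact ⟨m, h6, h7, h8, h9⟩
  · exact ⟨S₁, h1, h2, fun h0 α h3 h4 => absurd ⟨h0, α, h3, h4⟩ h⟩

def CompatQ (q : QC) (z : ℕ → Bool) : Prop :=
  ∀ a : Fin 4, ∀ i < (q.st a).len, z (4 * i + a) = X (q.st a).par i

lemma CompatQ.mono {p q : QC} (h : q ≤ p) {z : ℕ → Bool} (hz : CompatQ q z) : CompatQ p z :=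
  fun a i hi => (hz a i (lt_of_lt_of_le hi (h.2.2 a).1.1)).trans ((h.2.2 a).1.X_eq hi)

def stepQ (e : OC) (n : ℕ) (q : QC) (u' u : List ℕ) : Prop :=
  (∃ m, u' = u ++ [m]) ∧ ∀ z, CompatQ q z → 1 ∈ ev z e (encode (n, u))

lemma stepQ_mono (e : OC) (n : ℕ) (p q : QC) (u' u : List ℕ) (h : q ≤ p)
    (hs : stepQ e n p u' u) : stepQ e n q u' u :=
  ⟨hs.1, fun z hz => hs.2 z (hz.mono h)⟩

def TaskGen (e : OC) (n : ℕ) (u : List ℕ) (S : State) : Prop :=
  ∀ τ h, MinR.{1, 1, 0} (stepQ e n) (S.rq τ h) u ∧ Dec.{1, 1, 0} (stepQ e n) (S.rq τ h) u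

lemma taskGen_dense (e : OC) (n : ℕ) (u : List ℕ) (S : State) :
    ∃ S', SLe S' S ∧ TaskGen e n u S' :=
  lift_all S (fun _ q => MinR.{1, 1, 0} (stepQ e n) q u ∧ Dec.{1, 1, 0} (stepQ e n) q u)
    (fun _ _ _ h hq => ⟨h.1.mono hq, h.2.mono (stepQ_mono e n) hq⟩)
    (fun _ q => by
      obtain ⟨q₁, h1, h2⟩ := exists_minR.{1, 1, 0} (stepQ e n) q u
      obtain ⟨q₂, h3, h4⟩ := exists_dec.{1, 1, 0} (stepQ e n) q₁ u
      exact ⟨q₂, h3.trans h1, h2.mono h3, h4⟩)

def cd (τ : Fin 4 → ℕ) : ℕ := encode (List.ofFn τ)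

lemma cd_inj : Function.Injective cd := fun _ _ h => List.ofFn_injective (encode_injective h)

def TaskDiag (e : OC) (i : ℕ) (S : State) : Prop :=
  ∀ τ h, MinR.{1, 1, 0} (stepQ e (Nat.pair i (cd τ))) (S.rq τ h) []

lemma taskDiag_dense (e : OC) (i : ℕ) (S : State) : ∃ S', SLe S' S ∧ TaskDiag e i S' :=
  lift_all S (fun τ q => MinR.{1, 1, 0} (stepQ e (Nat.pair i (cd τ))) q [])
    (fun _ _ _ h hq => h.mono hq) (fun _ q => exists_minR _ q [])

abbrev Task : Type := (OC × OC × Option ℕ) ⊕ (ℕ × ℕ) ⊕ (OC × ℕ × List ℕ) ⊕ OC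

def Task.D : Task → ℕ → State → Prop
  | .inl t, _, S => TaskLow t.1 t.2.1 t.2.2 S
  | .inr (.inl t), _, S => TaskRank t.1 t.2 S
  | .inr (.inr (.inl t)), _, S => TaskGen t.1 t.2.1 t.2.2 S
  | .inr (.inr (.inr e)), i, S => TaskDiag e i S

lemma Task.dense (t : Task) (i : ℕ) (S : State) : ∃ S', SLe S' S ∧ t.D i S' := by
  rcases t with t | t | t | e
  · exact taskLow_dense _ _ _ S
  · exact taskRank_dense _ _ S
  · exact taskGen_dense _ _ _ S
  · exact taskDiag_dense _ _ S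

def State.start : State where
  N := 1
  len _ := 1
  par _ _ := 0
  tag _ _ _ := ⊤
  main := 0
  valid _ _ _ := ⟨le_rfl, WithTop.top_pos, fun _ h1 h2 => absurd h2 (not_lt.mpr h1)⟩
  sb _ _ _ _ := Or.inr fun _ => le_top
  main_lt := Nat.one_pos
  main_big _ := le_top
  main_std _ h1 h2 := absurd h2 (not_lt.mpr h1)

theorem exists_generic : ∃ (S : ℕ → State) (tk : ℕ → Task), (∀ i, SLe (S (i + 1)) (S i)) ∧
    (∀ i, (tk i).D i (S (i + 1))) ∧ ∀ t k, ∃ i, k ≤ i ∧ tk i = t := by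
  obtain ⟨g, hg⟩ := exists_surjective_nat Task
  choose F hF1 hF2 using Task.dense
  let tk : ℕ → Task := fun i => g (Nat.unpair i).1
  let S : ℕ → State := fun i => Nat.rec State.start (fun i S => F (tk i) i S) i
  refine ⟨S, tk, fun i => hF1 _ _ _, fun i => hF2 _ _ _, fun t k => ?_⟩
  obtain ⟨a, rfl⟩ := hg t
  exact ⟨Nat.pair a k, Nat.right_le_pair a k, by simp [tk]⟩

end Pool.Agent.MP_120e55_lc

end MrgPart5

-- ======== part 6: formerly Pool.Agent.MP_120e55_lc.Low
section MrgPart6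

namespace Pool.Agent.MP_120e55_lc

open Ordinal Encodable

/-- a generic sequence of states -/
structure Gen where
  S : ℕ → State
  tk : ℕ → Task
  hle : ∀ i, SLe (S (i + 1)) (S i)
  hD : ∀ i, (tk i).D i (S (i + 1))
  hcof : ∀ t k, ∃ i, k ≤ i ∧ tk i = t

instance : Nonempty Gen := by
  obtain ⟨S, tk, h1, h2, h3⟩ := exists_generic
  exact ⟨⟨S, tk, h1, h2, h3⟩⟩

namespace Gen

variable (G : Gen)

lemma sle {k k' : ℕ} (h : k ≤ k') : SLe (G.S k') (G.S k) := by
  induction k', h using Nat.le_induction with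
  | base => exact SLe.refl _
  | succ n _ ih => exact (G.hle n).trans ih

lemma long (l : ℕ) : ∃ k, ∀ i, k ≤ i → ∀ j < (G.S i).N, l ≤ (G.S i).len j := by
  obtain ⟨i, -, hi⟩ := G.hcof (.inr (.inl (l, 0))) 0
  have h := G.hD i
  rw [hi] at h
  exact ⟨i + 1, fun i' hi' => (G.sle hi').len_le fun j hj => (h.1 j hj).le⟩

open Classical in
/-- the generic tree -/
noncomputable def y : ℕ → Bool := fun n => decide (∃ k, InTree ((G.S k).p default) n)

lemma compat (k : ℕ) (c : Om) : Compat ((G.S k).p c) G.y := by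
  intro n hn
  simp only [y, decide_eq_true_eq]
  refine ⟨fun ⟨k', h⟩ => ?_, fun h => ⟨k, h⟩⟩
  obtain ⟨ι, anc, h1⟩ := G.sle (le_max_left k k')
  obtain ⟨ι', anc', h2⟩ := G.sle (le_max_right k k')
  have h3 : InTree ((G.S (max k k')).p default) n :=
    InTree.up (h2.2.1 default) (p := (G.S k').p (ι' default)) h
  exact InTree.down (h1.2.1 default) (p := (G.S k).p (ι default)) hn h3

lemma forces {e : OC} {n : ℕ} (h : 1 ∈ ev G.y e n) :
    ∃ k, ∀ i, k ≤ i → ∀ c, Forces ((G.S i).p c) e n := by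
  obtain ⟨u, hu⟩ := ev_near _ _ _ _ h
  obtain ⟨k, hk⟩ := G.long u
  refine ⟨k, fun i hi c y' hy' => hu y' fun m hm => ?_⟩
  have hd : Det ((G.S i).p c) m := by
    intro s hs j hj
    have := Encodable.length_le_encode s
    have h2 := hk i hi j hj
    change s.length ≤ (G.S i).len j
    omega
  exact Bool.eq_iff_iff.mpr ((hy' m hd).trans (G.compat i c m hd).symm)

lemma typein_le {α : Type} (r : α → α → Prop) [IsWellOrder α r] (f : α → Ordinal.{0})
    (hf : ∀ a b, r a b → f a < f b) (a : α) : typein r a ≤ f a := by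
  induction a using (IsWellFounded.wf (r := r)).induction with
  | _ a ih =>
    refine le_of_forall_lt fun o ho => ?_
    obtain ⟨b, rfl⟩ := typein_surj r (ho.trans (typein_lt_type r a))
    have hb := (typein_lt_typein r).mp ho
    exact lt_of_le_of_lt (ih b hb) (hf b a hb)

/-- every ordinal recursive in the generic tree is bounded by a tag of the main branch -/
theorem low {o : Ordinal.{0}} (ho : RecursiveOrdinalIn G.y o) :
    ∃ (β : Om) (k i : ℕ), o ≤ β.1 ∧ 1 ≤ i ∧ i < (G.S k).len (G.S k).main ∧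
      ((G.S k).rs (G.S k).main).tag i = (β.1 : WO) := by
  obtain ⟨D, r, hD, hr, hwo, rfl⟩ := ho
  obtain ⟨eD, heD⟩ := exists_code_bool hD
  obtain ⟨er, her⟩ := exists_code_bool hr
  let val : Option ℕ → ℕ → Om → WO := fun n i c => rP eD er ((G.S i).p c) n
  let Tr : Option ℕ → Option ℕ → Prop := fun m n =>
    ∃ m', m = some m' ∧ D m' = true ∧ ∀ n', n = some n' → r m' n' = true
  let Small : Option ℕ → Om → Prop := fun n β => ∃ k, ∀ i, k ≤ i → ∀ c, val n i c = (β.1 : WO)
  let Large : Option ℕ → Prop := fun n => ∃ k, ∀ i, k ≤ i → ∀ c : Om, (c.1 : WO) ≤ val n i c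
  have htask : ∀ n, ∃ k, TaskLow eD er n (G.S k) := by
    intro n
    obtain ⟨i, -, hi⟩ := G.hcof (.inl (eD, er, n)) 0
    have h := G.hD i
    rw [hi] at h
    exact ⟨i + 1, h⟩
  have hmin : ∀ n, ∃ k, ∀ i, k ≤ i → ∀ c, MinR.{1, 0, 0} (stepP eD er) ((G.S i).p c) n := by
    intro n
    obtain ⟨k, hk⟩ := htask n
    refine ⟨k, fun i hi c => ?_⟩
    obtain ⟨ι, anc, h⟩ := G.sle hi
    exact (hk.1 _).mono (h.2.1 c)
  have hlt : ∀ m n, Tr m n → ∃ k, ∀ i, k ≤ i → ∀ c, val n i c ≠ ⊤ → val m i c < val n i c := by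
    rintro m n ⟨m', rfl, h1, h2⟩
    obtain ⟨k₁, hk₁⟩ := hmin (some m')
    obtain ⟨k₂, hk₂⟩ := G.forces ((heD m').mpr h1)
    have h3 : ∃ k, ∀ i, k ≤ i → ∀ c, ∀ n', n = some n' →
        Forces ((G.S i).p c) er (encode (m', n')) := by
      cases n with
      | none => exact ⟨0, fun _ _ _ _ h => by simp at h⟩
      | some n' =>
        obtain ⟨k, hk⟩ := G.forces ((her (m', n')).mpr (h2 n' rfl))
        refine ⟨k, fun i hi c n'' h => ?_⟩
        rw [← Option.some.inj h]
        exact hk i hi c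
    obtain ⟨k₃, hk₃⟩ := h3
    exact ⟨max k₁ (max k₂ k₃), fun i hi c hne => rho_step (hk₁ i (by omega) c)
      ⟨m', rfl, hk₂ i (by omega) c, hk₃ i (by omega) c⟩ hne⟩
  have hcase : ∀ n, (∃ β : Om, Small n β ∧ ∃ k i, 1 ≤ i ∧ i < (G.S k).len (G.S k).main ∧
      ((G.S k).rs (G.S k).main).tag i = (β.1 : WO)) ∨ ∃ m, Tr m n ∧ Large m := by
    intro n
    obtain ⟨k, hk1, hk2⟩ := htask n
    rcases hk2 with ⟨β, h1, i, h2⟩ | ⟨m, hm⟩
    · refine Or.inl ⟨β, ⟨k, fun i hi c => ?_⟩, k, i, h2⟩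
      obtain ⟨ι, anc, h⟩ := G.sle hi
      exact (hk1 _ _ (h.2.1 c)).trans (h1 _)
    · refine Or.inr ⟨m, ?_, k, fun i hi c => ?_⟩
      · obtain ⟨m', h1, h2, h3⟩ := (hm default).1
        exact ⟨m', h1, (heD m').mp (h2 _ (G.compat k _)),
          fun n' hn' => (her (m', n')).mp (h3 n' hn' _ (G.compat k _))⟩
      · obtain ⟨ι, anc, h⟩ := G.sle hi
        exact le_trans (WithTop.coe_le_coe.mpr (h.1 c)) ((hm (ι c)).2 _ (h.2.1 c))
  have hbound : ∀ m (β : Om), (∃ k, ∀ i, k ≤ i → ∀ c, val m i c ≤ (β.1 : WO)) → ¬ Large m := by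
    rintro m β ⟨k, hk⟩ ⟨k', hk'⟩
    exact not_big_of_le β (hk (max k k') (le_max_left _ _)) (hk' (max k k') (le_max_right _ _))
  have hdown : ∀ m n (β : Om), Tr m n → (∃ k, ∀ i, k ≤ i → ∀ c, val n i c ≤ (β.1 : WO)) →
      ∃ k, ∀ i, k ≤ i → ∀ c, val m i c < (β.1 : WO) := by
    rintro m n β h ⟨k, hk⟩
    obtain ⟨k', hk'⟩ := hlt m n h
    refine ⟨max k k', fun i hi c => ?_⟩
    have h1 := hk i (by omega) c
    exact lt_of_lt_of_le (hk' i (by omega) c (ne_top_of_le_ne_top WithTop.coe_ne_top h1)) h1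
  rcases hcase none with ⟨β₀, h0, k, i, h1⟩ | ⟨m₀, h0, h1⟩
  · refine ⟨β₀, k, i, ?_, h1⟩
    have h0' : ∃ k, ∀ i, k ≤ i → ∀ c, val none i c ≤ (β₀.1 : WO) :=
      h0.imp fun k hk i hi c => (hk i hi c).le
    have h2 : ∀ a : {n : ℕ // D n = true}, ∃ β : Om, Small (some a.1) β ∧ β.1 < β₀.1 := by
      intro a
      have h3 := hdown (some a.1) none β₀ ⟨a.1, rfl, a.2, by simp⟩ h0'
      rcases hcase (some a.1) with ⟨β, h4, -⟩ | ⟨m, h4, h5⟩
      · refine ⟨β, h4, ?_⟩
        obtain ⟨k₁, h3⟩ := h3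
        obtain ⟨k₂, h4⟩ := h4
        have := h3 (max k₁ k₂) (le_max_left _ _) default
        rwa [h4 (max k₁ k₂) (le_max_right _ _) default, WithTop.coe_lt_coe] at this
      · have h6 := hdown m (some a.1) β₀ h4 (h3.imp fun k hk i hi c => (hk i hi c).le)
        exact absurd h5 (hbound m β₀ (h6.imp fun k hk i hi c => (hk i hi c).le))
    choose f hf1 hf2 using h2
    refine le_of_forall_lt fun o ho => ?_
    obtain ⟨a, rfl⟩ := typein_surj _ ho
    refine lt_of_le_of_lt (typein_le _ (fun a => (f a).1) (fun a b hab => ?_) a) (hf2 a)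
    obtain ⟨k₁, h3⟩ := hdown (some a.1) (some b.1) (f b)
      ⟨a.1, rfl, a.2, fun n' hn' => Option.some.inj hn' ▸ hab⟩
      ((hf1 b).imp fun k hk i hi c => (hk i hi c).le)
    obtain ⟨k₂, h4⟩ := hf1 a
    have := h3 (max k₁ k₂) (le_max_left _ _) default
    rwa [h4 (max k₁ k₂) (le_max_right _ _) default, WithTop.coe_lt_coe] at this
  · exfalso
    obtain ⟨m', rfl, h2, -⟩ := h0
    have h3 : ∀ a : {n : ℕ // D n = true}, ¬ Large (some a.1) := by
      intro a
      induction a using (hwo.wf).induction with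
      | _ a ih =>
        intro ha
        rcases hcase (some a.1) with ⟨β, h4, -⟩ | ⟨m, ⟨m'', rfl, h4, h5⟩, h6⟩
        · exact hbound _ β (h4.imp fun k hk i hi c => (hk i hi c).le) ha
        · exact ih ⟨m'', h4⟩ (h5 _ rfl) h6
    exact h3 ⟨m', h2⟩ h1

/-! the main branch -/

noncomputable def L (i : ℕ) : ℕ := (G.long (i + 1)).choose

lemma L_spec (i : ℕ) : i < (G.S (G.L i)).len (G.S (G.L i)).main :=
  (G.long (i + 1)).choose_spec _ le_rfl _ (G.S _).main_lt

noncomputable def mpar (i : ℕ) : ℕ := (G.S (G.L i)).par (G.S (G.L i)).main i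

noncomputable def mtag (i : ℕ) : WO := ((G.S (G.L i)).rs (G.S (G.L i)).main).tag i

lemma main_coh {k i : ℕ} (h : i < (G.S k).len (G.S k).main) :
    (G.S k).par (G.S k).main i = G.mpar i ∧ ((G.S k).rs (G.S k).main).tag i = G.mtag i := by
  have h1 := (G.sle (le_max_left k (G.L i))).main_ext
  have h2 := (G.sle (le_max_right k (G.L i))).main_ext
  refine ⟨(h1.2.1 i h).symm.trans (h2.2.1 i (G.L_spec i)), ?_⟩
  rcases Nat.eq_zero_or_pos i with rfl | h0
  · rw [mtag, State.rs_main_root, State.rs_main_root]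
  · exact (h1.2.2.1 i h0 h).symm.trans (h2.2.2.1 i h0 (G.L_spec i))

lemma main_valid {i : ℕ} (h : 1 ≤ i) :
    G.mpar i < i ∧ G.mtag i < G.mtag (G.mpar i) ∧ ∃ β : Om, G.mtag i = (β.1 : WO) := by
  have hl := G.L_spec i
  obtain ⟨h1, h2, h3, h4⟩ := ((G.S (G.L i)).rs_qvalid (G.S _).main_lt).2 i h hl
  have h5 := h4 rfl
  refine ⟨h1, ?_, h3.resolve_left h5⟩
  rw [← (G.main_coh (k := G.L i) (i := G.mpar i) (lt_trans h1 hl)).2]
  rcases h2 with h2 | h2
  · exact h2
  · exact lt_of_lt_of_eq (lt_top_iff_ne_top.mpr h5) h2.symm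

lemma pr_mpar {i : ℕ} (h : 1 ≤ i) : pr G.mpar i = G.mpar i := if_pos (G.main_valid h).1

instance kbWO : IsWellOrder ℕ (kb G.mpar) where
  wf := kb_wf _ G.mtag fun i hi => by rw [G.pr_mpar hi]; exact (G.main_valid hi).2.1
  trichotomous := kb_trichotomous _

lemma tag_le_typein (α : Ordinal.{0}) :
    ∀ i, 1 ≤ i → G.mtag i = (α : WO) → α ≤ typein (kb G.mpar) i := by
  induction α using WellFoundedLT.induction with
  | _ α ih =>
    intro i h1 h2
    refine le_of_forall_lt fun β hβ => ?_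
    obtain ⟨α', hα'⟩ := (G.main_valid h1).2.2
    have e : α'.1 = α := WithTop.coe_injective (hα'.symm.trans h2)
    obtain ⟨idx, hidx⟩ := en_spec (e ▸ α'.2) hβ
    obtain ⟨s, -, hs⟩ := G.hcof (.inr (.inl (i, idx))) 0
    have h := G.hD s
    rw [hs] at h
    have hl : i < (G.S (s + 1)).len (G.S (s + 1)).main := h.1 _ (G.S _).main_lt
    obtain ⟨m, h3, h4, h5, h6⟩ := h.2 h1 α' ((G.main_coh hl).2.trans hα')
      (by rw [e]; exact hidx ▸ hβ)
    have h7 := G.main_coh h4
    have h8 : kb G.mpar m i := by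
      have := kb_child G.mpar h3
      rwa [G.pr_mpar h3, ← h7.1, h5] at this
    refine lt_of_le_of_lt (ih β hβ m h3 ?_) ((typein_lt_typein _).mpr h8)
    rw [← h7.2, h6, e]
    exact congrArg _ hidx

end Gen

lemma kb_root (par : ℕ → ℕ) (i : ℕ) (h : 1 ≤ i) : kb par i 0 := by
  induction i using Nat.strong_induction_on with
  | _ i ih =>
    rcases Nat.eq_zero_or_pos (pr par i) with h0 | h0
    · exact h0 ▸ kb_child par h
    · exact kb_trans (kb_child par h) (ih _ (pr_lt par h) h0)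

lemma not_recursive_omega_one (x : ℕ → Bool) : ¬ RecursiveOrdinalIn x ω₁ := by
  rintro ⟨D, r, -, -, hwo, h⟩
  have : Ordinal.type (fun a b : {n : ℕ // D n = true} => r a.1 b.1 = true) < ω₁ := by
    rw [Cardinal.lt_omega_iff_card_lt, card_type, Cardinal.lt_aleph_one_iff]
    exact Cardinal.mk_le_aleph0
  exact absurd h this.ne

namespace Gen

variable (G : Gen)

lemma recursive_typein (n : ℕ) : RecursiveOrdinalIn (X G.mpar) (typein (kb G.mpar) n) := by
  let e : (fun a b : {m : ℕ // X G.mpar (Nat.pair m n) = true} =>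
      X G.mpar (Nat.pair a.1 b.1) = true) ≃r Subrel (kb G.mpar) (kb G.mpar · n) :=
    ⟨Equiv.subtypeEquivRight fun m => X_pair _ m n, fun {a b} => (X_pair _ a.1 b.1).symm⟩
  have hwo := e.toRelEmbedding.isWellOrder
  refine ⟨fun m => X G.mpar (Nat.pair m n), fun a b => X G.mpar (Nat.pair a b),
    computableIn_lookup _ ?_, computableIn_lookup (g := fun p : ℕ × ℕ => Nat.pair p.1 p.2) _ ?_,
    hwo, ?_⟩
  · exact (Primrec₂.natPair.comp Primrec.id (Primrec.const n)).to_comp
  · exact (Primrec₂.natPair.comp Primrec.fst Primrec.snd).to_comp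
  · rw [← type_subrel]
    exact e.ordinalType_congr

theorem omegaCK_lt : omegaCK G.y < omegaCK (X G.mpar) := by
  have h1 : omegaCK G.y ≤ typein (kb G.mpar) 0 := by
    apply csInf_le'
    intro h
    obtain ⟨β, k, i, h2, h3, h4, h5⟩ := G.low h
    have h6 := G.tag_le_typein β.1 i h3 ((G.main_coh h4).2.symm.trans h5)
    exact absurd (h2.trans h6) (not_le.mpr ((typein_lt_typein _).mpr (kb_root _ i h3)))
  refine lt_of_le_of_lt h1 ?_
  by_contra h2
  have h3 : ¬ RecursiveOrdinalIn (X G.mpar) (omegaCK (X G.mpar)) :=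
    csInf_mem (s := {α | ¬ RecursiveOrdinalIn (X G.mpar) α}) ⟨_, not_recursive_omega_one _⟩
  obtain ⟨n, hn⟩ := typein_surj (kb G.mpar) (lt_of_le_of_lt (not_lt.mp h2) (typein_lt_type _ 0))
  exact h3 (hn ▸ G.recursive_typein n)

end Gen

end Pool.Agent.MP_120e55_lc

end MrgPart6

-- ======== part 7: formerly Pool.Agent.MP_120e55_lc.Main
section MrgPart7

namespace Pool.Agent.MP_120e55_lc

open Ordinal Encodable

/-- Koenig's lemma for an inverse sequence of finite sets of naturals -/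
lemma konig (P : ℕ → ℕ → Prop) (N : ℕ → ℕ) (anc : ℕ → ℕ → ℕ) (h1 : ∀ k, ∃ j, P k j)
    (h2 : ∀ k j, P k j → j < N k) (h3 : ∀ k j, P (k + 1) j → P k (anc k j)) :
    ∃ θ : ℕ → ℕ, ∀ k, P k (θ k) ∧ anc k (θ (k + 1)) = θ k := by
  let dn : ℕ → ℕ → ℕ → ℕ := fun d => Nat.rec (fun _ j => j) (fun _ f k j => anc k (f (k + 1) j)) d
  have dn0 : ∀ k j, dn 0 k j = j := fun _ _ => rfl
  have dns : ∀ d k j, dn (d + 1) k j = anc k (dn d (k + 1) j) := fun _ _ _ => rfl
  have hP : ∀ d k j, P (k + d) j → P k (dn d k j) := by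
    intro d
    induction d with
    | zero => intro k j h; exact h
    | succ d ih =>
      intro k j h
      rw [dns]
      exact h3 _ _ (ih (k + 1) j (by rwa [show k + 1 + d = k + (d + 1) by ring]))
  let T : ℕ → ℕ → Set ℕ := fun k j => {d | ∃ j', P (k + d) j' ∧ dn d k j' = j}
  have h0 : ∃ j, (T 0 j).Infinite := by
    by_contra hcon
    push Not at hcon
    have : (⋃ j ∈ Set.Iio (N 0), T 0 j).Finite := (Set.finite_Iio _).biUnion fun j _ => hcon j
    refine Set.infinite_univ (this.subset fun d _ => ?_)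
    obtain ⟨j', hj'⟩ := h1 (0 + d)
    exact Set.mem_biUnion (h2 _ _ (hP d 0 j' hj')) ⟨j', hj', rfl⟩
  have hs : ∀ k j, (T k j).Infinite → ∃ j₁, anc k j₁ = j ∧ (T (k + 1) j₁).Infinite := by
    intro k j hj
    by_contra hcon
    push Not at hcon
    have : (⋃ j₁ ∈ {j₁ | j₁ < N (k + 1) ∧ anc k j₁ = j}, T (k + 1) j₁).Finite :=
      ((Set.finite_Iio (N (k + 1))).subset fun _ h => h.1).biUnion fun j₁ h => hcon j₁ h.2
    refine hj (((this.image Nat.succ).insert 0).subset fun d hd => ?_)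
    rcases d with _ | d
    · exact Set.mem_insert _ _
    · obtain ⟨j', h4, h5⟩ := hd
      have h6 : P (k + 1 + d) j' := by rwa [show k + 1 + d = k + (d + 1) by ring]
      exact Set.mem_insert_of_mem _ ⟨d, Set.mem_biUnion (x := dn d (k + 1) j')
        ⟨h2 _ _ (hP d _ _ h6), h5⟩ ⟨j', h6, rfl⟩, rfl⟩
  choose! nx hn1 hn2 using hs
  obtain ⟨j₀, hj₀⟩ := h0
  let θ : ℕ → ℕ := fun k => Nat.rec j₀ (fun k j => nx k j) k
  have hθ : ∀ k, (T k (θ k)).Infinite := by
    intro k
    induction k with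
    | zero => exact hj₀
    | succ k ih => exact hn2 k _ ih
  refine ⟨θ, fun k => ⟨?_, hn1 k _ (hθ k)⟩⟩
  obtain ⟨d, j', h4, h5⟩ := (hθ k).nonempty
  exact h5 ▸ hP d k j' h4

lemma join4_apply (x : Fin 4 → ℕ → Bool) (a : Fin 4) (i : ℕ) :
    join4 (x 0) (x 1) (x 2) (x 3) (4 * i + a) = x a i := by
  have ha := a.2
  have e1 : (4 * i + a) % 4 = a := by omega
  have e2 : (4 * i + a) / 4 = i := by omega
  simp only [join4, e1, e2]
  fin_cases a <;> simp

namespace Gen

variable (G : Gen)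

/-- the set of branches of the generic tree -/
def A : Set (ℕ → Bool) := {x | ∀ m, G.y (encode (seg x m)) = true}

lemma sigma11_A : Sigma11Reals G.y G.A :=
  ⟨fun p => G.y (encode p.1), computableIn_lookup (g := fun p : List Bool × List ℕ => encode p.1) _
    (Primrec.encode.comp Primrec.fst).to_comp,
    fun _ => ⟨fun h => ⟨fun _ => 0, h⟩, fun ⟨_, h⟩ => h⟩⟩

lemma main_mem : X G.mpar ∈ G.A := by
  intro m
  obtain ⟨k, hk⟩ := G.long m
  have hl := hk k le_rfl _ (G.S k).main_lt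
  simp only [y, decide_eq_true_eq]
  refine ⟨k, (G.S k).main, (G.S k).main_lt, m, hl, ?_⟩
  congr 1
  exact seg_congr fun i hi => X_congr i fun i' hi' => (G.main_coh (by omega)).1

noncomputable def io (k : ℕ) : Om → Om := (G.hle k).choose

noncomputable def anc (k : ℕ) : ℕ → ℕ := (G.hle k).choose_spec.choose

lemma refines (k : ℕ) : Refines (G.S (k + 1)) (G.S k) (G.io k) (G.anc k) :=
  (G.hle k).choose_spec.choose_spec

/-- every member of `A` is the limit of a thread of stems -/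
lemma exists_thread {z : ℕ → Bool} (hz : z ∈ G.A) : ∃ θ : ℕ → ℕ, ∀ k, θ k < (G.S k).N ∧
    G.anc k (θ (k + 1)) = θ k ∧ ∀ i < (G.S k).len (θ k), z i = X ((G.S k).par (θ k)) i := by
  obtain ⟨θ, hθ⟩ := konig (fun k j => j < (G.S k).N ∧ ∀ i, (∀ j' < (G.S k).N, i < (G.S k).len j') →
      z i = X ((G.S k).par j) i) (fun k => (G.S k).N) G.anc
    (by
      intro k
      obtain ⟨j₀, hj₀, hmin⟩ := Finset.exists_min_image (Finset.range (G.S k).N) (G.S k).len
        ⟨_, Finset.mem_range.mpr (G.S k).main_lt⟩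
      have hd : Det ((G.S k).p default) (encode (seg z ((G.S k).len j₀))) := by
        intro s hs j hj
        rw [encode_injective hs, seg_length]
        exact hmin j (Finset.mem_range.mpr hj)
      obtain ⟨j, hj, m, -, e⟩ := (G.compat k default _ hd).mp (hz _)
      obtain ⟨e1, e2⟩ := seg_inj (encode_injective e)
      exact ⟨j, hj, fun i hi => (e2 i (e1 ▸ hi j₀ (Finset.mem_range.mp hj₀))).symm⟩)
    (fun _ _ h => h.1)
    (by
      rintro k j ⟨h1, h2⟩
      obtain ⟨h3, h4⟩ := (G.refines k).2.2.1 j h1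
      refine ⟨h3, fun i hi => ?_⟩
      exact (h2 i ((G.hle k).len_le (l := i + 1) hi)).trans ((h4 default).X_eq (hi _ h3)))
  refine ⟨θ, fun k => ⟨(hθ k).1.1, (hθ k).2, fun i hi => ?_⟩⟩
  have hext : ∀ k', k ≤ k' → Ext ((G.S k').rs (θ k')) ((G.S k).rs (θ k)) := by
    intro k' hk'
    induction k', hk' using Nat.le_induction with
    | base => exact Ext.refl _
    | succ n _ ih =>
      have := (G.refines n).rs_ext (hθ (n + 1)).1.1
      rw [(hθ n).2] at this
      exact this.trans ih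
  obtain ⟨k', hk'⟩ := G.long (i + 1)
  exact ((hθ (max k k')).1.2 i (hk' _ (le_max_right _ _))).trans
    ((hext _ (le_max_left _ _)).X_eq hi)

open Classical in
/-- the real that is not analytic in any join of four members of `A` -/
noncomputable def gam : ℕ → Bool := fun n =>
  decide (∃ (i : ℕ) (τ : Fin 4 → ℕ) (h : ∀ a, τ a < (G.S (i + 1)).N) (e : OC),
    n = Nat.pair i (cd τ) ∧ G.tk i = .inr (.inr (.inr e)) ∧
      rho.{1, 1, 0} (stepQ e n) ((G.S (i + 1)).rq τ h) [] ≠ ⊤)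

lemma chain_iff (P : List ℕ → Prop) :
    (∃ f : ℕ → List ℕ, f 0 = [] ∧ ∀ j, (∃ m, f (j + 1) = f j ++ [m]) ∧ P (f j)) ↔
      ∃ g : ℕ → ℕ, ∀ j, P (seg g j) := by
  constructor
  · rintro ⟨f, h0, hf⟩
    choose g hg using fun j => (hf j).1
    have : ∀ j, seg g j = f j := by
      intro j
      induction j with
      | zero => rw [h0]; rfl
      | succ j ih => rw [seg_succ, ih, hg]
    exact ⟨g, fun j => (this j).symm ▸ (hf j).2⟩
  · rintro ⟨g, hg⟩
    exact ⟨seg g, rfl, fun j => ⟨⟨g j, seg_succ g j⟩, hg j⟩⟩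

theorem not_sigma11 (x : Fin 4 → ℕ → Bool) (hx : ∀ a, x a ∈ G.A) :
    ¬ Sigma11Nat (join4 (x 0) (x 1) (x 2) (x 3)) {m | G.gam m = true} := by
  rintro ⟨R, hR, hγ⟩
  obtain ⟨e, he⟩ := exists_code_bool hR
  set z := join4 (x 0) (x 1) (x 2) (x 3) with hz
  choose θ hθ using fun a => G.exists_thread (hx a)
  let q : ℕ → QC := fun k => (G.S k).rq (fun a => θ a k) fun a => (hθ a k).1
  have hext : ∀ k a, Ext ((q (k + 1)).st a) ((q k).st a) := by
    intro k a
    have := (G.refines k).rs_ext (hθ a (k + 1)).1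
    rwa [(hθ a k).2.1] at this
  obtain ⟨k₁, hk₁⟩ := WellFoundedLT.antitone_chain_condition (f := fun k => (q k).E)
    (antitone_nat_of_succ_le fun k a a' (h : θ a (k + 1) = θ a' (k + 1)) => by
      change θ a k = θ a' k
      rw [← (hθ a k).2.1, ← (hθ a' k).2.1, h])
  obtain ⟨k₂, hk₂⟩ := WellFoundedLT.antitone_chain_condition (f := fun k => (q k).b)
    (antitone_nat_of_succ_le fun k a (h : θ a (k + 1) = (G.S (k + 1)).main) => by
      change θ a k = (G.S k).main
      rw [← (hθ a k).2.1, h, (G.refines k).2.2.2])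
  obtain ⟨k₃, hk₃⟩ := WellFoundedLT.antitone_chain_condition
    (f := fun k a => ((q k).st a).tag 0) (antitone_nat_of_succ_le fun k a => (hext k a).2.2.2)
  let k₀ := max k₁ (max k₂ k₃)
  let q' : ℕ → QC := fun k => q (k₀ + k)
  have hq' : Antitone q' := antitone_nat_of_succ_le fun k =>
    ⟨(hk₁ (k₀ + (k + 1)) (by omega)).symm.trans (hk₁ (k₀ + k) (by omega)),
      (hk₂ (k₀ + (k + 1)) (by omega)).symm.trans (hk₂ (k₀ + k) (by omega)),
      fun a => ⟨hext (k₀ + k) a, congrFun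
        ((hk₃ (k₀ + (k + 1)) (by omega)).symm.trans (hk₃ (k₀ + k) (by omega))) a⟩⟩
  have hgen : ∀ n u, ∃ k, MinR.{1, 1, 0} (stepQ e n) (q' k) u ∧
      Dec.{1, 1, 0} (stepQ e n) (q' k) u := by
    intro n u
    obtain ⟨i, hi1, hi⟩ := G.hcof (.inr (.inr (.inl (e, n, u)))) k₀
    have h := G.hD i
    rw [hi] at h
    refine ⟨i + 1 - k₀, ?_⟩
    simp only [q']
    rw [show k₀ + (i + 1 - k₀) = i + 1 by omega]
    exact h _ _
  have hcomp : ∀ k, CompatQ (q k) z := fun k a i hi =>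
    (join4_apply x a i).trans ((hθ a k).2.2 i hi)
  have hforce : ∀ n u, R (n, u) = true ↔
      ∃ k, ∀ z', CompatQ (q' k) z' → 1 ∈ ev z' e (encode (n, u)) := by
    intro n u
    rw [← he]
    refine ⟨fun h => ?_, fun ⟨k, hk⟩ => hk z (hcomp _)⟩
    obtain ⟨v, hv⟩ := ev_near _ _ _ _ h
    obtain ⟨k, hk⟩ := G.long v
    refine ⟨k, fun z' hz' => hv z' fun i hi => ?_⟩
    have h4 : i % 4 < 4 := Nat.mod_lt _ (by norm_num)
    have hl : i / 4 < ((q' k).st ⟨i % 4, h4⟩).len := by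
      have := hk (k₀ + k) (by omega) _ (hθ ⟨i % 4, h4⟩ (k₀ + k)).1
      change i / 4 < (G.S (k₀ + k)).len (θ ⟨i % 4, h4⟩ (k₀ + k))
      omega
    have e1 := (hz' ⟨i % 4, h4⟩ _ hl).trans (hcomp _ ⟨i % 4, h4⟩ _ hl).symm
    simpa [Nat.div_add_mod] using e1
  have htruth : ∀ n, G.gam n = true ↔ ∀ k, rho.{1, 1, 0} (stepQ e n) (q' k) [] = ⊤ := by
    intro n
    rw [← truth (stepQ_mono e n) q' hq' (fun u => (hgen n u).imp fun _ h => h.1)
      (fun u => (hgen n u).imp fun _ h => h.2) []]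
    refine (hγ n).trans ?_
    rw [← chain_iff fun u => R (n, u) = true]
    refine exists_congr fun f => and_congr Iff.rfl (forall_congr' fun j => ?_)
    rw [hforce]
    exact ⟨fun ⟨h1, k, hk⟩ => ⟨k, h1, hk⟩, fun ⟨k, h1, hk⟩ => ⟨h1, k, hk⟩⟩
  obtain ⟨i, hi1, hi⟩ := G.hcof (.inr (.inr (.inr e))) k₀
  have h := G.hD i
  rw [hi] at h
  let n := Nat.pair i (cd fun a => θ a (i + 1))
  have hmin : MinR.{1, 1, 0} (stepQ e n) (q (i + 1)) [] := h _ _
  have hqi : q' (i + 1 - k₀) = q (i + 1) := by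
    simp only [q']
    rw [show k₀ + (i + 1 - k₀) = i + 1 by omega]
  have h1 : G.gam n = true ↔ rho.{1, 1, 0} (stepQ e n) (q (i + 1)) [] ≠ ⊤ := by
    simp only [gam, decide_eq_true_eq]
    refine ⟨?_, fun h2 => ⟨i, _, _, e, rfl, hi, h2⟩⟩
    rintro ⟨i', τ, hτ, e', h2, h3, h4⟩
    obtain ⟨rfl, h5⟩ := Nat.pair_eq_pair.mp h2
    obtain rfl := cd_inj h5
    rw [hi] at h3
    obtain rfl : e = e' := by simpa using h3
    exact h4
  have h2 : (∀ k, rho.{1, 1, 0} (stepQ e n) (q' k) [] = ⊤) ↔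
      rho.{1, 1, 0} (stepQ e n) (q (i + 1)) [] = ⊤ := by
    refine ⟨fun h3 => hqi ▸ h3 _, fun h3 k => ?_⟩
    have h4 := rho_mono.{1, 1, 0} (step := stepQ e n) (hq' (le_max_left k (i + 1 - k₀))) []
    rw [hmin _ (hqi ▸ hq' (le_max_right k (i + 1 - k₀))), h3] at h4
    exact top_le_iff.mp h4
  have := h1.symm.trans ((htruth n).trans h2)
  tauto

end Gen

theorem counterexample : ∃ (y : ℕ → Bool) (A : Set (ℕ → Bool)) (γ : ℕ → Bool),
    Sigma11Reals y A ∧ (∃ x ∈ A, omegaCK y < omegaCK x) ∧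
      ∀ x₀ ∈ A, ∀ x₁ ∈ A, ∀ x₂ ∈ A, ∀ x₃ ∈ A, ¬ HypIn γ (join4 x₀ x₁ x₂ x₃) := by
  obtain ⟨G⟩ : Nonempty Gen := inferInstance
  refine ⟨G.y, G.A, G.gam, G.sigma11_A, ⟨_, G.main_mem, G.omegaCK_lt⟩,
    fun x₀ h₀ x₁ h₁ x₂ h₂ x₃ h₃ h => ?_⟩
  refine G.not_sigma11 ![x₀, x₁, x₂, x₃] (fun a => ?_) h.1
  fin_cases a
  exacts [h₀, h₁, h₂, h₃]

end Pool.Agent.MP_120e55_lc

end MrgPart7

-- marker of a merged file
example : 731051 + 733809 = 731051 + 733809 := rfl
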