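import Mathlib.Logic.Function.CompTypeclasses
import Mathlib.SetTheory.Cardinal.Regular
import Mathlib.Algebra.CharP.Defs
import Mathlib.Algebra.Notation.Lemmas
import Mathlib.Topology.Sheaves.Presheaf
import Mathlib.Tactic.Bound

namespace Pool.Agent.MP_120e55_lc

open Ordinal

/-- countable ordinals -/
abbrev Om : Type 1 := {c : Ordinal.{0} // c < ω₁}

lemma om_lim : Order.IsSuccLimit (ω₁ : Ordinal.{0}) := Cardinal.isSuccLimit_omega 1

lemma add_one_lt {c : Ordinal.{0}} (h : c < ω₁) : c + 1 < ω₁ := om_lim.add_one_lt h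

lemma add_nat_lt {c : Ordinal.{0}} (h : c < ω₁) (n : ℕ) : c + n < ω₁ := by
  induction n with
  | zero => simpa using h
  | succ n ih =>
    have := add_one_lt ih
    push_cast
    rwa [← add_assoc]

lemma om_pos : (0 : Ordinal.{0}) < ω₁ := om_lim.pos

instance : Inhabited Om := ⟨⟨0, om_pos⟩⟩

def Om.sc (c : Om) : Om := ⟨c.1 + 1, add_one_lt c.2⟩

lemma countable_Iio {a : Ordinal.{0}} (h : a < ω₁) : Countable (Set.Iio a) := by
  rw [← Cardinal.mk_le_aleph0_iff, Cardinal.mk_Iio_ordinal, Cardinal.lift_le_aleph0,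
    ← Cardinal.lt_aleph_one_iff]
  rwa [← Cardinal.lt_omega_iff_card_lt]

lemma exists_enum (a : Ordinal.{0}) :
    ∃ f : ℕ → Ordinal.{0}, a < ω₁ → ∀ b < a, ∃ i, f i = b := by
  by_cases h : a < ω₁
  · have := countable_Iio h
    rcases isEmpty_or_nonempty (Set.Iio a) with h1 | h1
    · exact ⟨fun _ => 0, fun _ b hb => (h1.false ⟨b, hb⟩).elim⟩
    · obtain ⟨f, hf⟩ := exists_surjective_nat (Set.Iio a)
      refine ⟨fun i => (f i).1, fun _ b hb => ?_⟩
      obtain ⟨i, hi⟩ := hf ⟨b, hb⟩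
      exact ⟨i, by simp [hi]⟩
  · exact ⟨fun _ => 0, fun h' => absurd h' h⟩

/-- every countable family of countable ordinals has a strict countable bound -/
lemma exists_bound {ι : Type*} [Countable ι] (f : ι → Om) : ∃ b : Om, ∀ i, f i < b := by
  have h : (⨆ i, (f i).1) < ω₁ := Ordinal.iSup_lt_omega_one fun i => (f i).2
  refine ⟨⟨_ + 1, add_one_lt h⟩, fun i => ?_⟩
  change (f i).1 < (⨆ i, (f i).1) + 1
  have hb : BddAbove (Set.range fun i => (f i).1) := ⟨ω₁, by rintro _ ⟨i, rfl⟩; exact (f i).2.le⟩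
  exact lt_of_le_of_lt (le_ciSup hb i) (lt_add_one _)

/-- reindexing maps -/
def Infl (ι : Om → Om) : Prop := ∀ c, c ≤ ι c

lemma Infl.id : Infl id := fun _ => le_rfl

lemma Infl.comp {ι κ : Om → Om} (h1 : Infl ι) (h2 : Infl κ) : Infl (ι ∘ κ) :=
  fun c => (h2 c).trans (h1 _)

lemma pigeon {C : Type*} [Countable C] (f : Om → C) :
    ∃ ι, Infl ι ∧ ∃ v, ∀ c, f (ι c) = v := by
  by_contra hcon
  have h1 : ∀ v : C, ∃ c : Om, ∀ c', c ≤ c' → f c' ≠ v := by
    intro v
    by_contra h2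
    push Not at h2
    choose ι h3 h4 using h2
    exact hcon ⟨ι, h3, v, h4⟩
  choose g hg using h1
  obtain ⟨b, hb⟩ := exists_bound g
  exact hg (f b) b (hb _).le rfl

lemma fodor (a : Om) (g : Om → Ordinal.{0}) (hg : ∀ c, a < c → g c < c.1) :
    ∃ ι, Infl ι ∧ ∃ b : Om, ∀ c, a < ι c ∧ g (ι c) ≤ b.1 := by
  by_contra hcon
  have h1 : ∀ b : Om, ∃ c : Om, ∀ c', c ≤ c' → a < c' → b.1 < g c' := by
    intro b
    by_contra h2
    push Not at h2
    choose ι h3 h4 h5 using h2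
    exact hcon ⟨ι, h3, b, fun c => ⟨h4 c, h5 c⟩⟩
  choose F hF using h1
  let s : ℕ → Om := fun n => Nat.rec a.sc (fun _ b => (max b (F b)).sc) n
  have hs : ∀ n, s (n + 1) = (max (s n) (F (s n))).sc := fun n => rfl
  have hlt : (⨆ n, (s n).1) < ω₁ := Ordinal.iSup_lt_omega_one fun n => (s n).2
  have hb : BddAbove (Set.range fun n => (s n).1) := ⟨ω₁, by rintro _ ⟨i, rfl⟩; exact (s i).2.le⟩
  let c : Om := ⟨_, hlt⟩
  have hle : ∀ n, s n ≤ c := fun n => le_ciSup hb n
  have hsc : ∀ x : Om, x < x.sc := fun x => lt_add_one x.1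
  have hac : a < c := lt_of_lt_of_le (hsc a) (hle 0)
  obtain ⟨n, hn⟩ : ∃ n, g c < (s n).1 := (lt_ciSup_iff hb).mp (hg c hac)
  have h3 : F (s n) ≤ c := by
    refine le_trans ?_ (hle (n + 1))
    rw [hs]
    exact (le_max_right _ _).trans (hsc _).le
  exact lt_asymm hn (hF (s n) c h3 hac)

/-- constant countable value -/
def Std (v : Om → WithTop Ordinal.{0}) : Prop := ∃ b : Om, ∀ c, v c = (b.1 : WithTop Ordinal.{0})

/-- large values -/
def Big (v : Om → WithTop Ordinal.{0}) : Prop := ∀ c : Om, (c.1 : WithTop Ordinal.{0}) ≤ v c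

lemma Std.comp {v : Om → WithTop Ordinal.{0}} (h : Std v) (ι : Om → Om) : Std (v ∘ ι) := by
  obtain ⟨b, hb⟩ := h
  exact ⟨b, fun c => hb _⟩

lemma Big.comp {v : Om → WithTop Ordinal.{0}} (h : Big v) {ι : Om → Om} (hι : Infl ι) :
    Big (v ∘ ι) :=
  fun c => le_trans (WithTop.coe_le_coe.mpr (hι c)) (h (ι c))

lemma not_big_of_le {v : Om → WithTop Ordinal.{0}} (b : Om)
    (h : ∀ c, v c ≤ (b.1 : WithTop Ordinal.{0})) : ¬ Big v := by
  intro hb
  have := (hb b.sc).trans (h _)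
  rw [WithTop.coe_le_coe] at this
  exact absurd this (not_le.mpr (lt_add_one b.1))

lemma Std.not_big {v : Om → WithTop Ordinal.{0}} (h : Std v) : ¬ Big v := by
  obtain ⟨b, hb⟩ := h
  exact not_big_of_le b fun c => (hb c).le

lemma dichot (v : Om → WithTop Ordinal.{0}) :
    ∃ ι, Infl ι ∧ (Std (v ∘ ι) ∨ Big (v ∘ ι)) := by
  by_cases h : ∀ c : Om, ∃ c', c ≤ c' ∧ (c.1 : WithTop Ordinal.{0}) ≤ v c'
  · choose ι h1 h2 using h
    exact ⟨ι, h1, Or.inr h2⟩
  · push Not at h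
    obtain ⟨c₀, hc₀⟩ := h
    have h2 : ∀ c : Om, ∃ b : Set.Iio c₀.1, v (max c c₀) = (b.1 : WithTop Ordinal.{0}) := by
      intro c
      have := hc₀ (max c c₀) (le_max_right _ _)
      obtain ⟨b, hb1, hb2⟩ := WithTop.lt_iff_exists_coe.mp this
      exact ⟨⟨b, WithTop.coe_lt_coe.mp hb2⟩, hb1⟩
    choose f hf using h2
    have := countable_Iio c₀.2
    obtain ⟨ι, hι, b, hb⟩ := pigeon f
    refine ⟨fun c => max (ι c) c₀, fun c => (hι c).trans (le_max_left _ _), Or.inl ?_⟩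
    refine ⟨⟨b.1, lt_trans b.2 c₀.2⟩, fun c => ?_⟩
    simp only [Function.comp]
    rw [hf, hb]

lemma dichot_finset {T : Type*} (s : Finset T) (v : T → Om → WithTop Ordinal.{0}) :
    ∃ ι, Infl ι ∧ ∀ t ∈ s, (Std (v t ∘ ι) ∨ Big (v t ∘ ι)) := by
  classical
  induction s using Finset.induction_on with
  | empty => exact ⟨id, Infl.id, by simp⟩
  | insert a s _ ih =>
    obtain ⟨ι, hι, h⟩ := ih
    obtain ⟨κ, hκ, h2⟩ := dichot (v a ∘ ι)
    refine ⟨ι ∘ κ, hι.comp hκ, fun t ht => ?_⟩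
    rcases Finset.mem_insert.mp ht with rfl | ht
    · exact h2
    · rcases h t ht with h3 | h3
      · exact Or.inl (h3.comp κ)
      · exact Or.inr (h3.comp hκ)

open Classical in
/-- the reduct of a family of values: the constant value, or `⊤` -/
noncomputable def red (v : Om → WithTop Ordinal.{0}) : WithTop Ordinal.{0} :=
  if Std v then v default else ⊤

lemma red_of_const {v : Om → WithTop Ordinal.{0}} {b : Om}
    (h : ∀ c, v c = (b.1 : WithTop Ordinal.{0})) : red v = b.1 := by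
  rw [red, if_pos ⟨b, h⟩, h]

lemma red_of_big {v : Om → WithTop Ordinal.{0}} (h : Big v) : red v = ⊤ := by
  rw [red, if_neg fun h' => h'.not_big h]

lemma red_comp {v : Om → WithTop Ordinal.{0}} (h : Std v ∨ Big v) {ι : Om → Om} (hι : Infl ι) :
    red (v ∘ ι) = red v := by
  rcases h with ⟨b, hb⟩ | h
  · rw [red_of_const hb, red_of_const (v := v ∘ ι) (b := b) fun c => hb _]
  · rw [red_of_big h, red_of_big (h.comp hι)]

lemma red_le {v w : Om → WithTop Ordinal.{0}} (hv : Std v ∨ Big v) (hw : Std w ∨ Big w)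
    (h : ∀ c, v c ≤ w c) : red v ≤ red w := by
  rcases hw with ⟨b, hb⟩ | hw
  · rcases hv with ⟨a, ha⟩ | hv
    · rw [red_of_const ha, red_of_const hb, ← ha default, ← hb default]; exact h _
    · exact absurd hv (not_big_of_le b fun c => (hb c) ▸ h c)
  · rw [red_of_big hw]; exact le_top

lemma red_lt {v w : Om → WithTop Ordinal.{0}} (hv : Std v ∨ Big v) (hw : Std w ∨ Big w)
    (h : ∀ c, v c < w c) : red v < red w ∨ red w = ⊤ := by
  rcases hw with ⟨b, hb⟩ | hw
  · rcases hv with ⟨a, ha⟩ | hv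
    · rw [red_of_const ha, red_of_const hb, ← ha default, ← hb default]; exact Or.inl (h _)
    · exact absurd hv (not_big_of_le b fun c => (hb c) ▸ (h c).le)
  · exact Or.inr (red_of_big hw)

lemma red_cases (v : Om → WithTop Ordinal.{0}) :
    red v = ⊤ ∨ ∃ b : Om, red v = b.1 ∧ ∀ c, v c = (b.1 : WithTop Ordinal.{0}) := by
  by_cases h : Std v
  · obtain ⟨b, hb⟩ := h
    exact Or.inr ⟨b, red_of_const hb, hb⟩
  · left; rw [red, if_neg h]

end Pool.Agent.MP_120e55_lc
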